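import Pool.Agent.H707Z.PVGeom

set_option autoImplicit false

namespace Pool.Agent.H707Z.PV

open Real Set

lemma rank_two : 1 < Module.rank ℝ (ℝ × ℝ) := by
  rw [rank_prod', Module.rank_self]
  norm_num

/-- A convex open subset of the plane stays connected when a countable set is removed. -/
lemma preconn_diff {U s : Set (ℝ × ℝ)} (hU : IsOpen U) (hc : Convex ℝ U) (hs : s.Countable) :
    IsPreconnected (U \ s) := by
  have h := rank_two
  apply isPreconnected_of_forall_pair
  intro a ha b hb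
  suffices hJ : JoinedIn (U \ s) a b by
    obtain ⟨γ, hγ⟩ := hJ
    refine ⟨range γ, ?_, ⟨0, by simp⟩, ⟨1, by simp⟩, isPreconnected_range γ.continuous⟩
    rintro _ ⟨t, rfl⟩
    exact hγ t
  rcases eq_or_ne a b with rfl | hab
  · exact JoinedIn.refl ha
  let c := (2 : ℝ)⁻¹ • (a + b)
  let x := (2 : ℝ)⁻¹ • (b - a)
  have Ia : c - x = a := by
    simp only [c, x]
    module
  have Ib : c + x = b := by
    simp only [c, x]
    module
  have hcU : c ∈ U := by
    have := hc ha.1 hb.1 (by norm_num : (0 : ℝ) ≤ 2⁻¹) (by norm_num : (0 : ℝ) ≤ 2⁻¹) (by norm_num)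
    simpa only [c, smul_add] using this
  have x_ne_zero : x ≠ 0 := by simpa [x] using sub_ne_zero.2 hab.symm
  obtain ⟨y, hy⟩ : ∃ y, LinearIndependent ℝ ![x, y] :=
    exists_linearIndependent_pair_of_one_lt_rank h x_ne_zero
  have A : Set.Countable {t : ℝ | (segment ℝ (c + x) (c + t • y) ∩ s).Nonempty} := by
    apply countable_ofPred_nonempty_of_disjoint _ (fun t ↦ inter_subset_right) hs
    intro t t' htt'
    apply disjoint_iff_inter_eq_empty.2
    have N : {c + x} ∩ s = ∅ := by
      simpa only [singleton_inter_eq_empty, mem_compl_iff, Ib] using hb.2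
    rw [inter_assoc, inter_comm s, inter_assoc, inter_self, ← inter_assoc, ← subset_empty_iff, ← N]
    apply inter_subset_inter_left
    apply Eq.subset
    apply segment_inter_eq_endpoint_of_linearIndependent_of_ne hy htt'.symm
  have B : Set.Countable {t : ℝ | (segment ℝ (c - x) (c + t • y) ∩ s).Nonempty} := by
    apply countable_ofPred_nonempty_of_disjoint _ (fun t ↦ inter_subset_right) hs
    intro t t' htt'
    apply disjoint_iff_inter_eq_empty.2
    have N : {c - x} ∩ s = ∅ := by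
      simpa only [singleton_inter_eq_empty, mem_compl_iff, Ia] using ha.2
    rw [inter_assoc, inter_comm s, inter_assoc, inter_self, ← inter_assoc, ← subset_empty_iff, ← N]
    apply inter_subset_inter_left
    rw [sub_eq_add_neg _ x]
    apply Eq.subset
    apply segment_inter_eq_endpoint_of_linearIndependent_of_ne _ htt'.symm
    convert! hy.units_smul ![-1, 1]
    simp [← List.ofFn_inj]
  have hopen : IsOpen {t : ℝ | c + t • y ∈ U} :=
    hU.preimage (by fun_prop : Continuous fun t : ℝ => c + t • y)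
  obtain ⟨t, htU, ht⟩ := ((A.union B).dense_compl ℝ).inter_open_nonempty _ hopen
    ⟨0, by simpa using hcU⟩
  let z := c + t • y
  simp only [compl_union, mem_inter_iff, mem_compl_iff, mem_ofPred_eq, not_nonempty_iff_eq_empty]
    at ht
  have JA : JoinedIn (U \ s) a z := by
    apply JoinedIn.of_segment_subset
    apply subset_sdiff.2 ⟨hc.segment_subset ha.1 htU, _⟩
    rw [disjoint_iff_inter_eq_empty]
    convert! ht.2
    exact Ia.symm
  have JB : JoinedIn (U \ s) b z := by
    apply JoinedIn.of_segment_subset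
    apply subset_sdiff.2 ⟨hc.segment_subset hb.1 htU, _⟩
    rw [disjoint_iff_inter_eq_empty]
    convert! ht.1
    exact Ib.symm
  exact JA.trans JB.symm

variable {V : Type}

/-- `p` lies in the cell of `x`. -/
def Cl (pos : V → ℝ × ℝ) (p : ℝ × ℝ) (x : V) : Prop := ∀ y, CH p (pos x) ≤ CH p (pos y)

/-- The abstract Voronoi graph in the coordinates `(t, s)`. -/
structure Setup (pos : V → ℝ × ℝ) (G : SimpleGraph V) : Prop where
  inj : Function.Injective pos
  adj1 : ∀ x y, G.Adj x y → ∃ p, Cl pos p x ∧ Cl pos p y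
  adj2 : ∀ x y p q, x ≠ y → p ≠ q → Cl pos p x → Cl pos p y → Cl pos q x → Cl pos q y →
    G.Adj x y
  lf : ∀ N : ℕ, {z | |(pos z).1| ≤ N ∧ |(pos z).2| ≤ N}.Finite
  ne : Nonempty V

variable {pos : V → ℝ × ℝ} {G : SimpleGraph V}

lemma Setup.countable (h : Setup pos G) : Countable V := by
  rw [← Set.countable_univ_iff]
  have : (univ : Set V) = ⋃ N : ℕ, {z | |(pos z).1| ≤ N ∧ |(pos z).2| ≤ N} := by
    ext z
    simp only [mem_univ, mem_iUnion, mem_ofPred_eq, true_iff]
    obtain ⟨N, hN⟩ := exists_nat_ge (max |(pos z).1| |(pos z).2|)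
    exact ⟨N, (le_max_left _ _).trans hN, (le_max_right _ _).trans hN⟩
  rw [this]
  exact countable_iUnion fun N => (h.lf N).countable

lemma bound_of_mul_exp {s d Y : ℝ} (h : cc s * exp |d| ≤ Y) : cc s ≤ Y ∧ |d| ≤ Y := by
  have h1 := one_le_cc s
  have h2 : 1 ≤ exp |d| := Real.one_le_exp (abs_nonneg _)
  have h3 := Real.add_one_le_exp |d|
  constructor <;> nlinarith

lemma Setup.exists_cell (h : Setup pos G) (p : ℝ × ℝ) : ∃ x, Cl pos p x := by
  obtain ⟨g⟩ := h.ne
  set Y := 8 * cc p.2 ^ 2 * cc (pos g).2 * exp |p.1 - (pos g).1| with hY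
  obtain ⟨N, hN⟩ := exists_nat_ge (Y + |p.1|)
  have hfin : {z | CH p (pos z) ≤ CH p (pos g)}.Finite := by
    apply (h.lf N).subset
    intro z hz
    obtain ⟨h1, h2⟩ := bound_of_mul_exp (comp_three hz)
    have h3 := abs_le_cc (pos z).2
    have h4 : |(pos z).1| ≤ |p.1 - (pos z).1| + |p.1| := by
      have : (pos z).1 = p.1 - (p.1 - (pos z).1) := by ring
      calc |(pos z).1| = |p.1 - (p.1 - (pos z).1)| := by rw [← this]
        _ ≤ _ := (abs_sub _ _).trans (by linarith)
    exact ⟨by linarith, by linarith [abs_nonneg p.1]⟩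
  obtain ⟨x, hx, hmin⟩ := hfin.exists_minimalFor (fun z => CH p (pos z)) _ ⟨g, show CH p (pos g) ≤ CH p (pos g) from le_rfl⟩
  refine ⟨x, fun y => ?_⟩
  by_contra hcon
  push Not at hcon
  have hy : CH p (pos y) ≤ CH p (pos g) := hcon.le.trans hx
  have := hmin hy hcon.le
  exact absurd this (not_le.2 hcon)

/-- The exceptional points: those in two different cells that are not adjacent. -/
def Exc (pos : V → ℝ × ℝ) (G : SimpleGraph V) : Set (ℝ × ℝ) :=
  {p | ∃ x y, x ≠ y ∧ ¬ G.Adj x y ∧ Cl pos p x ∧ Cl pos p y}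

lemma Setup.exc_countable (h : Setup pos G) : (Exc pos G).Countable := by
  have := h.countable
  have : Exc pos G = ⋃ x, ⋃ y, {p | x ≠ y ∧ ¬ G.Adj x y ∧ Cl pos p x ∧ Cl pos p y} := by
    ext p; simp [Exc]
  rw [this]
  refine countable_iUnion fun x => countable_iUnion fun y => Set.Subsingleton.countable ?_
  intro p hp q hq
  by_contra hpq
  exact hp.2.1 (h.adj2 x y p q hp.1 hpq hp.2.2.1 hp.2.2.2 hq.2.2.1 hq.2.2.2)

lemma cl_self (x : V) : Cl pos (pos x) x := by
  intro y
  rw [CH_self]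
  by_contra hcon
  push Not at hcon
  have := eq_of_CH_le_one hcon.le
  rw [← this, CH_self] at hcon
  exact lt_irrefl _ hcon

lemma Setup.pos_not_exc (h : Setup pos G) (u : V) : pos u ∉ Exc pos G := by
  rintro ⟨x, y, hxy, -, hx, hy⟩
  have h1 := hx u
  have h2 := hy u
  rw [CH_self] at h1 h2
  exact hxy ((h.inj (eq_of_CH_le_one h1)).symm.trans (h.inj (eq_of_CH_le_one h2)))

lemma isClosed_cl (x : V) : IsClosed {p | Cl pos p x} := by
  have : {p | Cl pos p x} = ⋂ y, {p | CH p (pos x) ≤ CH p (pos y)} := by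
    ext p; simp [Cl]
  rw [this]
  exact isClosed_iInter fun y => isClosed_le (continuous_CH_left _) (continuous_CH_left _)

/-- The nerve lemma. -/
lemma Setup.nerve (h : Setup pos G) {Y : Set (ℝ × ℝ)} (hY : IsPreconnected Y)
    (hE : ∀ p ∈ Y, p ∉ Exc pos G) {T : Set V} (hT : T.Finite)
    (hcov : ∀ p ∈ Y, ∀ z, Cl pos p z → z ∈ T) {u v : V} (hu : pos u ∈ Y) (hv : pos v ∈ Y) :
    G.edist u v ≤ T.encard := by
  classical
  let Conn : V → Prop := fun z => ∃ w : G.Walk u z, ∀ a ∈ w.support, a ∈ T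
  have huT : u ∈ T := hcov _ hu u (cl_self u)
  have hvT : v ∈ T := hcov _ hv v (cl_self v)
  have hcu : Conn u := ⟨SimpleGraph.Walk.nil, by simpa using huT⟩
  have hcv : Conn v := by
    by_contra hnv
    have hA : IsClosed (⋃ z ∈ {z ∈ T | Conn z}, {p | Cl pos p z}) :=
      (hT.subset (sep_subset _ _)).isClosed_biUnion fun z _ => isClosed_cl z
    have hB : IsClosed (⋃ z ∈ {z ∈ T | ¬ Conn z}, {p | Cl pos p z}) :=
      (hT.subset (sep_subset _ _)).isClosed_biUnion fun z _ => isClosed_cl z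
    obtain ⟨p, hpY, hpA, hpB⟩ := isPreconnected_closed_iff.1 hY _ _ hA hB (by
      intro p hp
      obtain ⟨z, hz⟩ := h.exists_cell p
      by_cases hc : Conn z
      · exact Or.inl (mem_biUnion (show z ∈ {z ∈ T | Conn z} from ⟨hcov p hp z hz, hc⟩) hz)
      · exact Or.inr (mem_biUnion (show z ∈ {z ∈ T | ¬ Conn z} from ⟨hcov p hp z hz, hc⟩) hz))
      ⟨pos u, hu, mem_biUnion (show u ∈ {z ∈ T | Conn z} from ⟨huT, hcu⟩) (cl_self u)⟩
      ⟨pos v, hv, mem_biUnion (show v ∈ {z ∈ T | ¬ Conn z} from ⟨hvT, hnv⟩) (cl_self v)⟩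
    simp only [mem_iUnion, mem_ofPred_eq, exists_prop] at hpA hpB
    obtain ⟨z1, ⟨-, ⟨w, hw⟩⟩, hp1⟩ := hpA
    obtain ⟨z2, ⟨hz2T, hz2⟩, hp2⟩ := hpB
    have hne : z1 ≠ z2 := by
      rintro rfl
      exact hz2 ⟨w, hw⟩
    have hadj : G.Adj z1 z2 := by
      by_contra hna
      exact hE p hpY ⟨z1, z2, hne, hna, hp1, hp2⟩
    apply hz2
    refine ⟨w.concat hadj, ?_⟩
    intro a ha
    rw [SimpleGraph.Walk.support_concat] at ha
    simp only [List.mem_append, List.mem_singleton] at ha
    rcases ha with ha | rfl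
    · exact hw a ha
    · exact hz2T
  obtain ⟨w, hw⟩ := hcv
  have hp := w.bypass_isPath
  have hsub : (↑w.bypass.support.toFinset : Set V) ⊆ T := by
    intro a ha
    simp only [List.coe_toFinset, mem_ofPred_eq] at ha
    exact hw a (w.support_bypass_subset_support ha)
  have h1 := encard_le_encard hsub
  rw [encard_coe_eq_coe_finsetCard, List.toFinset_card_of_nodup hp.support_nodup,
    SimpleGraph.Walk.length_support] at h1
  calc G.edist u v ≤ w.bypass.length := SimpleGraph.edist_le _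
    _ ≤ ((w.bypass.length + 1 : ℕ) : ℕ∞) := by exact_mod_cast Nat.le_succ _
    _ ≤ _ := h1

end Pool.Agent.H707Z.PV
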