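import Mathlib

set_option autoImplicit false

namespace Pool.Agent.H707Z.PV

open MeasureTheory ProbabilityTheory
open scoped ENNReal NNReal

/-- The Poincare disk. -/
def disk : Set ℂ := Metric.ball 0 1

/-- Hyperbolic distance (curvature `-1`) between two points of the Poincare disk. -/
noncomputable def hdist (z w : ℂ) : ℝ :=
  Real.arcosh (1 + 2 * ‖z - w‖ ^ 2 / ((1 - ‖z‖ ^ 2) * (1 - ‖w‖ ^ 2)))

/-- Hyperbolic area measure `4 dx dy / (1 - |z|^2)^2` on the Poincare disk. -/
noncomputable def harea : Measure ℂ :=
  (volume.restrict disk).withDensity fun z => ENNReal.ofReal (4 / (1 - ‖z‖ ^ 2) ^ 2)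

/-- `X` is a Poisson point process on the disk with intensity measure `μ`: a random subset of the
disk such that the number of its points in a Borel set `A` of finite measure has the Poisson law
of mean `μ A`, and the numbers of points in pairwise disjoint Borel sets are independent. -/
structure IsPoissonProcess {Ω : Type} [MeasurableSpace Ω] (P : Measure Ω) (μ : Measure ℂ)
    (X : Ω → Set ℂ) : Prop where
  subset_disk : ∀ ω, X ω ⊆ disk
  law : ∀ A : Set ℂ, MeasurableSet A → μ A ≠ ∞ →
    HasLaw (fun ω => (X ω ∩ A).encard)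
      ((poissonMeasure (μ A).toNNReal).map (Nat.cast : ℕ → ℕ∞)) P
  indep : ∀ (n : ℕ) (A : Fin n → Set ℂ), (∀ i, MeasurableSet (A i)) →
    Pairwise (fun i j => Disjoint (A i) (A j)) →
    iIndepFun (fun i ω => (X ω ∩ A i).encard) P

/-- The Voronoi cell of `x` with respect to the point set `S`. -/
def cell (S : Set ℂ) (x : ℂ) : Set ℂ := {p | p ∈ disk ∧ ∀ y ∈ S, hdist p x ≤ hdist p y}

/-- The hyperbolic geodesic segment from `p` to `q`. -/
def hsegment (p q : ℂ) : Set ℂ := {w | w ∈ disk ∧ hdist p w + hdist w q = hdist p q}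

/-- The dual graph of the Voronoi tessellation of `S`: a vertex is a point of `S`, standing for
its cell, and two different cells are adjacent when both contain a geodesic segment with two
different endpoints, that is, of positive length. -/
def voronoiGraph (S : Set ℂ) : SimpleGraph S where
  Adj x y := x ≠ y ∧ ∃ p ∈ disk, ∃ q ∈ disk, p ≠ q ∧ hsegment p q ⊆ cell S x ∩ cell S y
  symm := ⟨by
    rintro x y ⟨hxy, p, hp, q, hq, hpq, h⟩
    exact ⟨hxy.symm, p, hp, q, hq, hpq, by rwa [Set.inter_comm]⟩⟩
  loopless := ⟨fun _ h => h.1 rfl⟩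

/-- `γ` is a geodesic of the Voronoi graph of `S` from a cell `x` containing `-r` to a cell `y`
containing `r`, and `z` is a cell containing `0`. -/
def IsConfig (S : Set ℂ) (r : ℝ) (x y z : S) (γ : (voronoiGraph S).Walk x y) : Prop :=
  -(r : ℂ) ∈ cell S x ∧ (r : ℂ) ∈ cell S y ∧ (0 : ℂ) ∈ cell S z ∧
    (γ.length : ℕ∞) = (voronoiGraph S).edist x y

open Classical in
/-- The deviation `D_r`: the largest, over all geodesics `γ` of the Voronoi graph between cells
containing `-r` and `r` and all cells `z` containing `0`, of the graph distance from `γ` to `z`.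
It is `⊤` by convention if there is no such geodesic or no such cell. -/
noncomputable def deviation (S : Set ℂ) (r : ℝ) : ℕ∞ :=
  if ∃ (x y z : S) (γ : (voronoiGraph S).Walk x y), IsConfig S r x y z γ then
    ⨆ (x : S) (y : S) (z : S) (γ : (voronoiGraph S).Walk x y) (_ : IsConfig S r x y z γ),
      ⨅ v ∈ γ.support, (voronoiGraph S).edist v z
  else ⊤

end Pool.Agent.H707Z.PV
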