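import Pool.Agent.H707Z.PVConn

set_option autoImplicit false

namespace Pool.Agent.H707Z.PV

open Real Set

/-- Points of the strips `-n, ..., n` below the heights allowed by `r`. -/
def Bset (r : ℤ → ℕ) (n : ℕ) : Set (ℝ × ℝ) :=
  {p | |⌊p.1⌋| ≤ n ∧ |p.2| ≤ 96 * ((r ⌊p.1⌋ : ℝ) + 1)}

/-- A box around the point `m` of the axis. -/
def Rset (J : ℕ) (m : ℤ) : Set (ℝ × ℝ) := {p | |p.1 - m| ≤ J ∧ |p.2| ≤ J}

variable {V : Type}

structure Nice (pos : V → ℝ × ℝ) (r : ℤ → ℕ) (K A J : ℕ) : Prop where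
  wit : ∀ m : ℤ, ∃ g, ⌊(pos g).1⌋ = m ∧ |(pos g).2| < r m + 1
  sum : ∀ n : ℕ, ((∑ m ∈ Finset.Icc (-(n : ℤ)) n, r m : ℕ) : ℕ∞) + (pos ⁻¹' Bset r n).encard ≤
    ((K * (n + A) : ℕ) : ℕ∞)
  box : ∀ m : ℤ, (pos ⁻¹' Rset J m).encard ≤ ((m.natAbs + A : ℕ) : ℕ∞)

variable {pos : V → ℝ × ℝ} {G : SimpleGraph V} {r : ℤ → ℕ} {K A J : ℕ}

lemma abs_floor_le {t : ℝ} {N : ℕ} (h : |t| ≤ N) : |⌊t⌋| ≤ (N : ℤ) := by
  rw [abs_le] at h ⊢
  constructor
  · apply Int.le_floor.2; push_cast; exact h.1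
  · have := Int.floor_le t
    have : (⌊t⌋ : ℝ) ≤ ((N : ℤ) : ℝ) := by push_cast; linarith [h.2]
    exact_mod_cast this

lemma abs_sub_le_one_of_floor {a b : ℝ} (h : ⌊a⌋ = ⌊b⌋) : |a - b| ≤ 1 :=
  (Int.abs_sub_lt_one_of_floor_eq_floor h).le

lemma mem_R {Y : ℝ} (hY : 1 ≤ Y) (hJ : 24 * (Y + 2) ^ 3 + 2 ≤ J) {u z : V} {p : ℝ × ℝ}
    (hu : cc (pos u).2 ≤ Y)
    (hp : p ∈ Ioo ((pos u).1 - 1) ((pos u).1 + 1) ×ˢ Ioo (-(Y + 1)) (Y + 1))
    (hz : Cl pos p z) : pos z ∈ Rset J ⌊(pos u).1⌋ := by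
  obtain ⟨⟨h1, h2⟩, h3, h4⟩ := hp
  have hc := comp_three (hz u)
  have hcp : cc p.2 ≤ Y + 2 := by
    have := cc_le p.2
    have : |p.2| ≤ Y + 1 := abs_le.2 ⟨h3.le, h4.le⟩
    linarith
  have hd : |p.1 - (pos u).1| ≤ 1 := abs_le.2 ⟨by linarith, by linarith⟩
  have he : exp |p.1 - (pos u).1| ≤ 3 := (exp_le_exp.2 hd).trans exp_one_le_three
  have hb : 8 * cc p.2 ^ 2 * cc (pos u).2 * exp |p.1 - (pos u).1| ≤ 24 * (Y + 2) ^ 3 := by
    have h5 : cc p.2 ^ 2 ≤ (Y + 2) ^ 2 := pow_le_pow_left₀ (cc_pos _).le hcp 2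
    have h6 := cc_pos (pos u).2
    calc _ ≤ 8 * (Y + 2) ^ 2 * (Y + 2) * 3 := by gcongr; linarith
      _ = _ := by ring
  obtain ⟨h5, h6⟩ := bound_of_mul_exp (hc.trans hb)
  have h7 := abs_le_cc (pos z).2
  have h8 := Int.floor_le (pos u).1
  have h9 := Int.lt_floor_add_one (pos u).1
  rw [abs_le] at h6
  exact ⟨abs_le.2 ⟨by linarith [h6.2], by linarith [h6.1]⟩, by linarith⟩

lemma mem_B (hN : Nice pos r K A J) {Y : ℝ} (hY : 1 ≤ Y) (hJ : 24 * (Y + 2) ^ 3 + 2 ≤ J) {n : ℕ}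
    {u z : V} {p : ℝ × ℝ} (hu : cc (pos u).2 ≤ Y) (hun : |(pos u).1| ≤ n)
    (hp : p ∈ Ioo (-(n : ℝ) - 1) (n + 1) ×ˢ Ioo (-1 : ℝ) 1)
    (hz : Cl pos p z) : pos z ∈ Bset r (3 * n + J) := by
  obtain ⟨⟨h1, h2⟩, h3, h4⟩ := hp
  have hcp : cc p.2 ^ 2 ≤ 2 := by rw [cc_sq]; nlinarith
  constructor
  · apply abs_floor_le
    have hc := comp_three (hz u)
    rw [abs_le] at hun
    have hd : |p.1 - (pos u).1| ≤ 2 * n + 1 := abs_le.2 ⟨by linarith [hun.2], by linarith [hun.1]⟩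
    have h5 : exp |p.1 - (pos z).1| ≤ exp (16 * Y + (2 * n + 1)) := by
      have h6 := one_le_cc (pos z).2
      have h7 := cc_pos (pos u).2
      have h8 := exp_pos |p.1 - (pos z).1|
      have h9 : 16 * Y ≤ exp (16 * Y) := by linarith [Real.add_one_le_exp (16 * Y)]
      calc exp |p.1 - (pos z).1| ≤ cc (pos z).2 * exp |p.1 - (pos z).1| := by nlinarith
        _ ≤ _ := hc
        _ ≤ 8 * 2 * Y * exp (2 * n + 1) := by gcongr
        _ = 16 * Y * exp (2 * n + 1) := by ring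
        _ ≤ exp (16 * Y) * exp (2 * n + 1) := by gcongr
        _ = _ := (exp_add _ _).symm
    have h6 := exp_le_exp.1 h5
    have h7 : 16 * Y + 2 ≤ J := by nlinarith [sq_nonneg (Y + 2), sq_nonneg Y]
    rw [abs_le] at h6
    push_cast
    exact abs_le.2 ⟨by linarith [h6.2], by linarith [h6.1]⟩
  · obtain ⟨g, hg1, hg2⟩ := hN.wit ⌊(pos z).1⌋
    have hc := comp_three (hz g)
    have h5 := abs_sub_le_one_of_floor hg1
    have h6 : |p.1 - (pos g).1| ≤ |p.1 - (pos z).1| + 1 := by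
      have : p.1 - (pos g).1 = (p.1 - (pos z).1) - ((pos g).1 - (pos z).1) := by ring
      rw [this]
      exact (abs_sub _ _).trans (by linarith)
    have h7 : exp |p.1 - (pos g).1| ≤ exp |p.1 - (pos z).1| * 3 := by
      calc _ ≤ exp (|p.1 - (pos z).1| + 1) := exp_le_exp.2 h6
        _ = exp |p.1 - (pos z).1| * exp 1 := exp_add _ _
        _ ≤ _ := mul_le_mul_of_nonneg_left exp_one_le_three (exp_pos _).le
    have h8 : cc (pos g).2 ≤ 2 * ((r ⌊(pos z).1⌋ : ℝ) + 1) := by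
      have := cc_le (pos g).2
      have : (0 : ℝ) ≤ r ⌊(pos z).1⌋ := Nat.cast_nonneg _
      linarith
    have h9 := cc_pos (pos g).2
    have he := exp_pos |p.1 - (pos z).1|
    have h10 : cc (pos z).2 * exp |p.1 - (pos z).1| ≤
        (96 * ((r ⌊(pos z).1⌋ : ℝ) + 1)) * exp |p.1 - (pos z).1| := by
      calc _ ≤ _ := hc
        _ ≤ 8 * 2 * (2 * ((r ⌊(pos z).1⌋ : ℝ) + 1)) * (exp |p.1 - (pos z).1| * 3) := by gcongr
        _ = _ := by ring
    exact (abs_le_cc _).trans (le_of_mul_le_mul_right h10 he)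

/-- The upper bound on graph distances between points of the tube. -/
lemma conn (hS : Setup pos G) (hN : Nice pos r K A J) {Y : ℝ} (hY : 1 ≤ Y)
    (hJ : 24 * (Y + 2) ^ 3 + 2 ≤ J) {n : ℕ} {u v : V} (hu : cc (pos u).2 ≤ Y)
    (hv : cc (pos v).2 ≤ Y) (hun : |(pos u).1| ≤ n) (hvn : |(pos v).1| ≤ n) :
    G.edist u v ≤ ((K * (3 * n + J + A) + 2 * (n + A) : ℕ) : ℕ∞) := by
  let U1 : V → Set (ℝ × ℝ) := fun w =>
    Ioo ((pos w).1 - 1) ((pos w).1 + 1) ×ˢ Ioo (-(Y + 1)) (Y + 1)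
  let U2 : Set (ℝ × ℝ) := Ioo (-(n : ℝ) - 1) (n + 1) ×ˢ Ioo (-1 : ℝ) 1
  have hE := hS.exc_countable
  have o1 : ∀ w, IsOpen (U1 w) := fun w => isOpen_Ioo.prod isOpen_Ioo
  have o2 : IsOpen U2 := isOpen_Ioo.prod isOpen_Ioo
  have c1 : ∀ w, IsPreconnected (U1 w \ Exc pos G) := fun w =>
    preconn_diff (o1 w) ((convex_Ioo _ _).prod (convex_Ioo _ _)) hE
  have c2 : IsPreconnected (U2 \ Exc pos G) :=
    preconn_diff o2 ((convex_Ioo _ _).prod (convex_Ioo _ _)) hE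
  have hmeet : ∀ w, |(pos w).1| ≤ n → ∃ p, p ∈ U1 w \ Exc pos G ∧ p ∈ U2 \ Exc pos G := by
    intro w hw
    rw [abs_le] at hw
    obtain ⟨p, ⟨hp1, hp2⟩, hp3⟩ := (hE.dense_compl ℝ).inter_open_nonempty _ ((o1 w).inter o2)
      ⟨((pos w).1, 0), ⟨⟨by simp, by simp⟩, ⟨by simp only; linarith, by simp only; linarith⟩⟩,
        ⟨⟨by simp only; linarith [hw.1], by simp only; linarith [hw.2]⟩, ⟨by simp, by simp⟩⟩⟩
    exact ⟨p, ⟨hp1, hp3⟩, hp2, hp3⟩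
  have hself : ∀ w, cc (pos w).2 ≤ Y → pos w ∈ U1 w \ Exc pos G := by
    intro w hw
    have := abs_le.1 ((abs_le_cc _).trans hw)
    exact ⟨⟨⟨by linarith, by linarith⟩, ⟨by linarith [this.1], by linarith [this.2]⟩⟩,
      hS.pos_not_exc w⟩
  obtain ⟨p1, hp1, hp1'⟩ := hmeet u hun
  obtain ⟨p2, hp2, hp2'⟩ := hmeet v hvn
  have hconn : IsPreconnected ((U1 u \ Exc pos G) ∪ (U2 \ Exc pos G) ∪ (U1 v \ Exc pos G)) :=
    IsPreconnected.union p2 (Or.inr hp2') hp2 (IsPreconnected.union p1 hp1 hp1' (c1 u) c2) (c1 v)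
  have hbox : ∀ w, |(pos w).1| ≤ n →
      (pos ⁻¹' Rset J ⌊(pos w).1⌋).encard ≤ ((n + A : ℕ) : ℕ∞) := by
    intro w hw
    refine (hN.box _).trans ?_
    have := abs_floor_le hw
    have : (⌊(pos w).1⌋).natAbs ≤ n := by
      rw [Int.abs_eq_natAbs] at this
      exact_mod_cast this
    exact_mod_cast Nat.add_le_add_right this A
  have hcard : (pos ⁻¹' Bset r (3 * n + J) ∪ pos ⁻¹' Rset J ⌊(pos u).1⌋ ∪
      pos ⁻¹' Rset J ⌊(pos v).1⌋).encard ≤ ((K * (3 * n + J + A) + 2 * (n + A) : ℕ) : ℕ∞) := by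
    have h1 : (pos ⁻¹' Bset r (3 * n + J)).encard ≤ ((K * (3 * n + J + A) : ℕ) : ℕ∞) :=
      le_add_self.trans (hN.sum (3 * n + J))
    calc _ ≤ _ := encard_union_le _ _
      _ ≤ _ := add_le_add (encard_union_le _ _) (hbox v hvn)
      _ ≤ ((K * (3 * n + J + A) : ℕ) : ℕ∞) + ((n + A : ℕ) : ℕ∞) + ((n + A : ℕ) : ℕ∞) :=
        add_le_add (add_le_add h1 (hbox u hun)) le_rfl
      _ = _ := by
        rw [← Nat.cast_add, ← Nat.cast_add]
        congr 1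
        ring
  refine (hS.nerve hconn ?_ (finite_of_encard_le_coe hcard) ?_ (Or.inl (Or.inl (hself u hu)))
    (Or.inr (hself v hv))).trans hcard
  · rintro p ((hp | hp) | hp) <;> exact hp.2
  · rintro p ((hp | hp) | hp) z hz
    · exact Or.inl (Or.inr (mem_R hY hJ hu hp.1 hz))
    · exact Or.inl (Or.inl (mem_B hN hY hJ hu hun hp.1 hz))
    · exact Or.inr (mem_R hY hJ hv hp.1 hz)

lemma disc_ivt (f : ℕ → ℝ) (τ : ℝ) (a n : ℕ) (h1 : f a ≤ τ) (h2 : τ < f (a + n)) :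
    ∃ k, a ≤ k ∧ k < a + n ∧ f k ≤ τ ∧ τ < f (k + 1) := by
  induction n with
  | zero => exact absurd h1 (not_le.2 h2)
  | succ n ih =>
    by_cases h : τ < f (a + n)
    · obtain ⟨k, hk1, hk2, hk3⟩ := ih h
      exact ⟨k, hk1, by omega, hk3⟩
    · exact ⟨a + n, by omega, by omega, not_lt.1 h, h2⟩

/-- The lower bound on the length of an excursion outside the tube. -/
lemma lower (hS : Setup pos G) (hN : Nice pos r K A J) {Y : ℝ} {R Q : ℕ} (hQ : 0 < Q)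
    (hY : 6 * ((R : ℝ) + 2) ≤ (1 - exp (-(1 / (2 * Q : ℝ)))) ^ 2 / 2 * Y)
    (x : ℕ → V) (α β : ℕ) (hαβ : α ≤ β) (hadj : ∀ k, α ≤ k → k < β → G.Adj (x k) (x (k + 1)))
    (hout : ∀ k, α < k → k < β → Y < cc (pos (x k)).2) (hY0 : 0 ≤ Y) (Gd : Finset ℤ)
    (hGd : ∀ m ∈ Gd, r m ≤ R ∧ (pos (x α)).1 + Y < m ∧ (m : ℝ) + 1 ≤ (pos (x β)).1 - Y) :
    Gd.card * Q ≤ β + 1 - α := by
  have hQ' : (0 : ℝ) < Q := by exact_mod_cast hQ
  have hδ : (0 : ℝ) < 1 / (2 * Q : ℝ) := by positivity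
  have key : ∀ a ∈ Gd ×ˢ Finset.range Q, ∃ k ∈ Finset.Icc α β,
      |((a.1 : ℝ) + a.2 / Q) - (pos (x k)).1| < 1 / (2 * Q : ℝ) := by
    rintro ⟨m, i⟩ ha
    simp only [Finset.mem_product, Finset.mem_range] at ha
    obtain ⟨hm1, hm2, hm3⟩ := hGd m ha.1
    set τ : ℝ := (m : ℝ) + i / Q with hτ
    have hi0 : (0 : ℝ) ≤ i / Q := by positivity
    have hi1 : (i : ℝ) / Q < 1 := by
      rw [div_lt_one hQ']; exact_mod_cast ha.2
    obtain ⟨g, hg1, hg2⟩ := hN.wit m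
    have hg3 : |(pos g).1 - τ| ≤ 1 := by
      have h1 := Int.floor_le (pos g).1
      have h2 := Int.lt_floor_add_one (pos g).1
      rw [hg1] at h1 h2
      exact abs_le.2 ⟨by linarith, by linarith⟩
    have hg4 : cc (pos g).2 ≤ R + 2 := by
      have := cc_le (pos g).2
      have : (r m : ℝ) ≤ R := by exact_mod_cast hm1
      linarith
    obtain ⟨k, hk1, hk2, hk3, hk4⟩ := disc_ivt (fun k => (pos (x k)).1) τ α (β - α)
      (by linarith) (by rw [Nat.add_sub_cancel' hαβ]; linarith)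
    rw [Nat.add_sub_cancel' hαβ] at hk2
    obtain ⟨p, hp1, hp2⟩ := hS.adj1 _ _ (hadj k hk1 hk2)
    have main : ∀ j, α ≤ j → j ≤ β → Cl pos p (x j) → τ ∈ uIcc p.1 (pos (x j)).1 →
        |τ - (pos (x j)).1| < 1 / (2 * Q : ℝ) := by
      intro j hj1 hj2 hj3 hj4
      rcases edge_lemma (hj3 g) hδ hj4 hg3 hg4 hY with h | h
      · exact h
      · exfalso
        obtain ⟨h1, h2⟩ := bound_of_mul_exp h
        rw [abs_le] at h2
        rcases hj1.eq_or_lt with rfl | hj1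
        · linarith [h2.2]
        rcases hj2.eq_or_lt with rfl | hj2
        · linarith [h2.1]
        linarith [hout j hj1 hj2]
    by_cases hτp : τ ≤ p.1
    · exact ⟨k, Finset.mem_Icc.2 ⟨hk1, hk2.le⟩,
        main k hk1 hk2.le hp1 (mem_uIcc.2 (Or.inr ⟨hk3, hτp⟩))⟩
    · exact ⟨k + 1, Finset.mem_Icc.2 ⟨by omega, hk2⟩,
        main (k + 1) (by omega) hk2 hp2 (mem_uIcc.2 (Or.inl ⟨(not_le.1 hτp).le, hk4.le⟩))⟩
  choose! f hf1 hf2 using key
  have hcard := Finset.card_le_card_of_injOn f hf1 (by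
    rintro ⟨m, i⟩ ha ⟨m', i'⟩ hb hab
    have h1 := hf2 _ ha
    have h2 := hf2 _ hb
    rw [hab] at h1
    simp only [Finset.coe_product, Finset.coe_range, mem_prod, mem_Iio] at ha hb
    simp only at h1 h2
    have h3 : |((m : ℝ) + i / Q) - ((m' : ℝ) + i' / Q)| < 1 / Q := by
      have : ((m : ℝ) + i / Q) - ((m' : ℝ) + i' / Q) = (((m : ℝ) + i / Q) -
        (pos (x (f (m', i')))).1) - (((m' : ℝ) + i' / Q) - (pos (x (f (m', i')))).1) := by ring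
      rw [this]
      refine (abs_sub _ _).trans_lt ?_
      have : (1 : ℝ) / Q = 1 / (2 * Q) + 1 / (2 * Q) := by field_simp; ring
      linarith
    have h4 : |(((Q : ℤ) * m + i - ((Q : ℤ) * m' + i') : ℤ) : ℝ)| < 1 := by
      have : (((Q : ℤ) * m + i - ((Q : ℤ) * m' + i') : ℤ) : ℝ) =
          Q * (((m : ℝ) + i / Q) - ((m' : ℝ) + i' / Q)) := by
        push_cast; field_simp
      rw [this, abs_mul, abs_of_pos hQ']
      calc _ < (Q : ℝ) * (1 / Q) := mul_lt_mul_of_pos_left h3 hQ'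
        _ = 1 := by field_simp
    have h5 : (Q : ℤ) * m + i - ((Q : ℤ) * m' + i') = 0 := by
      rw [← Int.cast_abs] at h4
      have : |(Q : ℤ) * m + i - ((Q : ℤ) * m' + i')| < 1 := by exact_mod_cast h4
      exact Int.abs_lt_one_iff.1 this
    have hi : (i : ℤ) < Q := by exact_mod_cast ha.2
    have hi' : (i' : ℤ) < Q := by exact_mod_cast hb.2
    have hi0 : (0 : ℤ) ≤ i := Int.natCast_nonneg _
    have hi0' : (0 : ℤ) ≤ i' := Int.natCast_nonneg _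
    have h6 : m = m' := by
      rcases lt_trichotomy m m' with h | h | h
      · nlinarith
      · exact h
      · nlinarith
    subst h6
    have : i = i' := by omega
    rw [this])
  simpa [Finset.card_product] using hcard

end Pool.Agent.H707Z.PV
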