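import Pool.Agent.H707Z.PVDet1

set_option autoImplicit false

namespace Pool.Agent.H707Z.PV

open Real Set

variable {V : Type}

/-- Some point lies near the point `τ` of the axis. -/
def Near (pos : V → ℝ × ℝ) (R' : ℕ) (τ : ℝ) : Prop :=
  ∃ g, |(pos g).1 - τ| ≤ 1 ∧ |(pos g).2| ≤ R'

lemma near_bound {pos : V → ℝ × ℝ} {R' : ℕ} {τ : ℝ} (h : Near pos R' τ) {x : V}
    (hx : Cl pos (τ, 0) x) :
    cc (pos x).2 ≤ 24 * ((R' : ℝ) + 1) ∧ |τ - (pos x).1| ≤ 24 * ((R' : ℝ) + 1) := by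
  obtain ⟨g, hg1, hg2⟩ := h
  have hc := comp_three (hx g)
  simp only [cc_zero] at hc
  apply bound_of_mul_exp
  refine hc.trans ?_
  have h1 : cc (pos g).2 ≤ R' + 1 := by linarith [cc_le (pos g).2]
  have h2 : exp |τ - (pos g).1| ≤ 3 := by
    rw [abs_sub_comm] at hg1
    exact (exp_le_exp.2 hg1).trans exp_one_le_three
  have := cc_pos (pos g).2
  calc _ ≤ 8 * 1 ^ 2 * ((R' : ℝ) + 1) * 3 := by gcongr
    _ = _ := by ring

lemma edist_getVert {G : SimpleGraph V} {x y : V} (γ : G.Walk x y) (i n : ℕ)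
    (h : i + n ≤ γ.length) : G.edist (γ.getVert i) (γ.getVert (i + n)) ≤ n := by
  induction n with
  | zero => simp
  | succ n ih =>
    have h1 := ih (by omega)
    have h2 : G.edist (γ.getVert (i + n)) (γ.getVert (i + n + 1)) = 1 :=
      SimpleGraph.edist_eq_one_iff_adj.2 (γ.adj_getVert_succ (by omega))
    calc _ ≤ G.edist (γ.getVert i) (γ.getVert (i + n)) +
          G.edist (γ.getVert (i + n)) (γ.getVert (i + n + 1)) := SimpleGraph.edist_triangle
      _ ≤ n + 1 := by rw [h2]; gcongr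
      _ = _ := by push_cast; rfl

lemma sub_le_of_geodesic {G : SimpleGraph V} {x y : V} (γ : G.Walk x y)
    (hγ : (γ.length : ℕ∞) = G.edist x y) {α β D : ℕ} (h1 : α ≤ β) (h2 : β ≤ γ.length)
    (hD : G.edist (γ.getVert α) (γ.getVert β) ≤ D) : β - α ≤ D := by
  have e1 := edist_getVert γ 0 α (by omega)
  have e2 := edist_getVert γ β (γ.length - β) (by omega)
  rw [zero_add, γ.getVert_zero] at e1
  rw [Nat.add_sub_cancel' h2, γ.getVert_length] at e2
  have : (γ.length : ℕ∞) ≤ ((α + D + (γ.length - β) : ℕ) : ℕ∞) := by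
    rw [hγ]
    calc G.edist x y ≤ G.edist x (γ.getVert β) + G.edist (γ.getVert β) y :=
          SimpleGraph.edist_triangle
      _ ≤ (G.edist x (γ.getVert α) + G.edist (γ.getVert α) (γ.getVert β)) +
          G.edist (γ.getVert β) y := add_le_add SimpleGraph.edist_triangle le_rfl
      _ ≤ ((α : ℕ∞) + D) + ((γ.length - β : ℕ) : ℕ∞) := add_le_add (add_le_add e1 hD) e2
      _ = _ := by rw [← Nat.cast_add, ← Nat.cast_add]
  have : γ.length ≤ α + D + (γ.length - β) := by exact_mod_cast this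
  omega

lemma count_good {r : ℤ → ℕ} {K A n : ℕ} (hs : ∑ m ∈ Finset.Icc (-(n : ℤ)) n, r m ≤ K * (n + A))
    (I : Finset ℤ) (hI : I ⊆ Finset.Icc (-(n : ℤ)) n) :
    2 * I.card ≤ 2 * (I.filter fun m => r m ≤ 2 * K).card + (n + A) := by
  have h1 := Finset.card_filter_add_card_filter_not (s := I) (fun m => r m ≤ 2 * K)
  set b := (I.filter fun m => ¬ r m ≤ 2 * K).card with hb
  have h2 : b * (2 * K + 1) ≤ K * (n + A) := by
    calc b * (2 * K + 1) ≤ ∑ m ∈ I.filter fun m => ¬ r m ≤ 2 * K, r m := by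
          have := Finset.card_nsmul_le_sum (I.filter fun m => ¬ r m ≤ 2 * K) r (2 * K + 1) (by
            intro m hm
            have := (Finset.mem_filter.1 hm).2
            omega)
          rw [smul_eq_mul] at this
          exact this
      _ ≤ ∑ m ∈ Finset.Icc (-(n : ℤ)) n, r m :=
          Finset.sum_le_sum_of_subset ((Finset.filter_subset _ _).trans hI)
      _ ≤ _ := hs
  have h3 : 2 * b ≤ n + A := by
    by_contra hcon
    push Not at hcon
    nlinarith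
  omega

theorem det (K R' : ℕ) : ∃ J : ℕ, ∀ A : ℕ, ∃ M : ℕ, ∀ (V : Type) (pos : V → ℝ × ℝ)
    (G : SimpleGraph V) (r : ℤ → ℕ), Setup pos G → Nice pos r K A J → ∀ σ : ℝ, 0 ≤ σ →
    Near pos R' (-σ) → Near pos R' σ → Near pos R' 0 →
    (∀ x y, Cl pos (-σ, 0) x → Cl pos (σ, 0) y → G.Reachable x y) ∧
    ∀ (x y z : V) (γ : G.Walk x y), Cl pos (-σ, 0) x → Cl pos (σ, 0) y → Cl pos (0, 0) z →
      (γ.length : ℕ∞) = G.edist x y → ∃ v ∈ γ.support, G.edist v z ≤ M := by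
  classical
  set Q : ℕ := 6 * K + 6 with hQ
  have hQ0 : 0 < Q := by omega
  set κ : ℝ := (1 - exp (-(1 / (2 * Q : ℝ)))) ^ 2 / 2 with hκ
  have hκ0 : 0 < κ := by
    have : (0 : ℝ) < 1 / (2 * Q : ℝ) := by positivity
    have : exp (-(1 / (2 * Q : ℝ))) < 1 := exp_lt_one_iff.2 (by linarith)
    have : 0 < 1 - exp (-(1 / (2 * Q : ℝ))) := by linarith
    positivity
  obtain ⟨Y, hY⟩ := exists_nat_ge (max (24 * ((R' : ℝ) + 1)) (6 * (((2 * K : ℕ) : ℝ) + 2) / κ))
  have hY1 : 24 * ((R' : ℝ) + 1) ≤ Y := (le_max_left _ _).trans hY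
  have hY2 : 6 * (((2 * K : ℕ) : ℝ) + 2) ≤ κ * Y := by
    have := (le_max_right _ _).trans hY
    rw [div_le_iff₀ hκ0] at this
    linarith
  have hY3 : (1 : ℝ) ≤ Y := by
    have : (0 : ℝ) ≤ R' := Nat.cast_nonneg _
    linarith
  refine ⟨24 * (Y + 2) ^ 3 + 2, fun A => ?_⟩
  set J : ℕ := 24 * (Y + 2) ^ 3 + 2 with hJdef
  have hJ : 24 * ((Y : ℝ) + 2) ^ 3 + 2 ≤ J := by rw [hJdef]; push_cast; exact le_rfl
  set N1 : ℕ := (3 * K + 3) * (A + 4 * Y + 4) + K * (J + A) + 2 * A + 1 + 2 * Y with hN1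
  refine ⟨K * (3 * N1 + J + A) + 2 * (N1 + A), ?_⟩
  intro V pos G r hS hN σ hσ e1 e2 e3
  constructor
  · intro x y hx hy
    obtain ⟨n, hn⟩ := exists_nat_ge (max |(pos x).1| |(pos y).1|)
    apply SimpleGraph.reachable_of_edist_ne_top
    exact ne_top_of_le_ne_top (ENat.natCast_ne_top _) (conn hS hN hY3 hJ
      ((near_bound e1 hx).1.trans hY1) ((near_bound e2 hy).1.trans hY1)
      ((le_max_left _ _).trans hn) ((le_max_right _ _).trans hn))
  intro x y z γ hx hy hz hγ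
  obtain ⟨hx1, hx2⟩ := near_bound e1 hx
  obtain ⟨hy1, hy2⟩ := near_bound e2 hy
  obtain ⟨hz1, hz2⟩ := near_bound e3 hz
  have hN1Y : 2 * (Y : ℝ) ≤ N1 := by
    have : 2 * Y ≤ N1 := by omega
    exact_mod_cast this
  have hzN : |(pos z).1| ≤ N1 := by
    rw [zero_sub, abs_neg] at hz2
    linarith
  suffices h : ∃ v ∈ γ.support, cc (pos v).2 ≤ Y ∧ |(pos v).1| ≤ N1 by
    obtain ⟨v, hv, hv1, hv2⟩ := h
    exact ⟨v, hv, conn hS hN hY3 hJ hv1 (hz1.trans hY1) hv2 hzN⟩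
  rw [abs_le] at hx2 hy2
  by_cases hσY : σ ≤ Y
  · exact ⟨x, γ.start_mem_support, hx1.trans hY1,
      abs_le.2 ⟨by linarith [hx2.2], by linarith [hx2.1]⟩⟩
  push Not at hσY
  -- the last visit to the left half of the tube
  let P : ℕ → Prop := fun k => cc (pos (γ.getVert k)).2 ≤ Y ∧ (pos (γ.getVert k)).1 ≤ 0
  have hP0 : P 0 := by
    simp only [P, γ.getVert_zero]
    exact ⟨hx1.trans hY1, by linarith [hx2.1]⟩
  set α := Nat.findGreatest P γ.length with hα
  have hPα : P α := Nat.findGreatest_spec (Nat.zero_le _) hP0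
  have hαL : α ≤ γ.length := Nat.findGreatest_le _
  have hαmax : ∀ k, α < k → k ≤ γ.length → ¬ P k := fun k h1 h2 =>
    Nat.findGreatest_is_greatest h1 h2
  have hyL : cc (pos (γ.getVert γ.length)).2 ≤ Y ∧ 0 < (pos (γ.getVert γ.length)).1 := by
    rw [γ.getVert_length]
    exact ⟨hy1.trans hY1, by linarith [hy2.2]⟩
  have hαL' : α < γ.length := by
    rcases hαL.eq_or_lt with h | h
    · have := hPα.2
      rw [h] at this
      linarith [hyL.2]
    · exact h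
  have hex : ∃ k, α < k ∧ cc (pos (γ.getVert k)).2 ≤ Y := ⟨γ.length, hαL', hyL.1⟩
  set β := Nat.find hex with hβ
  obtain ⟨hαβ, hβY⟩ : α < β ∧ cc (pos (γ.getVert β)).2 ≤ Y := Nat.find_spec hex
  have hβL : β ≤ γ.length := Nat.find_min' hex ⟨hαL', hyL.1⟩
  have hout : ∀ k, α < k → k < β → (Y : ℝ) < cc (pos (γ.getVert k)).2 := by
    intro k h1 h2
    have := Nat.find_min hex h2
    by_contra hcon
    exact this ⟨h1, not_lt.1 hcon⟩
  have hβpos : 0 < (pos (γ.getVert β)).1 := by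
    by_contra hcon
    exact hαmax β hαβ hβL ⟨hβY, not_lt.1 hcon⟩
  refine ⟨γ.getVert α, γ.getVert_mem_support α, hPα.1, ?_⟩
  set a := ⌊(pos (γ.getVert α)).1⌋ with ha
  set b := ⌊(pos (γ.getVert β)).1⌋ with hb
  have ha1 := Int.floor_le (pos (γ.getVert α)).1
  have ha2 := Int.lt_floor_add_one (pos (γ.getVert α)).1
  have hb1 := Int.floor_le (pos (γ.getVert β)).1
  have hb2 := Int.lt_floor_add_one (pos (γ.getVert β)).1
  rw [← ha] at ha1 ha2
  rw [← hb] at hb1 hb2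
  have ha0 : a ≤ 0 := by
    have : (a : ℝ) ≤ 0 := ha1.trans hPα.2
    exact_mod_cast this
  have hb0 : 0 ≤ b := Int.floor_nonneg.2 hβpos.le
  obtain ⟨n, hn⟩ : ∃ n : ℕ, (n : ℤ) = max (-a) (b + 1) :=
    ⟨(max (-a) (b + 1)).toNat, Int.toNat_of_nonneg (by omega)⟩
  have hna : -(n : ℝ) ≤ a := by
    have : -(n : ℤ) ≤ a := by omega
    exact_mod_cast this
  have hnb : (b : ℝ) + 1 ≤ n := by
    have : b + 1 ≤ (n : ℤ) := by omega
    exact_mod_cast this
  have hn0 : (0 : ℝ) ≤ n := Nat.cast_nonneg _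
  have hαn : |(pos (γ.getVert α)).1| ≤ n := abs_le.2 ⟨by linarith, by linarith [hPα.2]⟩
  have hβn : |(pos (γ.getVert β)).1| ≤ n := abs_le.2 ⟨by linarith, by linarith⟩
  have hup := sub_le_of_geodesic γ hγ hαβ.le hβL (conn hS hN hY3 hJ hPα.1 hβY hαn hβn)
  set I : Finset ℤ := Finset.Icc (a + Y + 1) (b - Y - 1) with hI
  have hsum : ∑ m ∈ Finset.Icc (-(n : ℤ)) n, r m ≤ K * (n + A) := by
    have := le_self_add.trans (hN.sum n)
    exact_mod_cast this
  have hcount := count_good hsum I (by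
    intro m hm
    simp only [hI, Finset.mem_Icc] at hm ⊢
    omega)
  have hlow := lower hS hN hQ0 hY2 γ.getVert α β hαβ.le
    (fun k _ h2 => γ.adj_getVert_succ (by omega)) hout (by linarith)
    (I.filter fun m => r m ≤ 2 * K) (by
      intro m hm
      simp only [hI, Finset.mem_filter, Finset.mem_Icc] at hm
      obtain ⟨⟨h1, h2⟩, h3⟩ := hm
      have h1' : (a : ℝ) + Y + 1 ≤ m := by exact_mod_cast h1
      have h2' : (m : ℝ) ≤ b - Y - 1 := by exact_mod_cast h2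
      exact ⟨h3, by linarith, by linarith⟩)
  have hIcard : n ≤ I.card + 2 * Y + 2 := by
    rw [hI, Int.card_Icc]
    omega
  set g := (I.filter fun m => r m ≤ 2 * K).card with hg
  have h1 : n ≤ 2 * g + A + 4 * Y + 4 := by omega
  have h2 : g * (6 * K + 6) ≤ K * (3 * n + J + A) + 2 * (n + A) + 1 := by
    have h5 : β + 1 - α ≤ β - α + 1 := by
      clear * - hαβ
      omega
    exact hlow.trans (h5.trans (Nat.add_le_add_right hup 1))
  have h3 : (3 * K + 3) * n ≤ (3 * K + 3) * (2 * g + A + 4 * Y + 4) := Nat.mul_le_mul_left _ h1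
  have h4 : n ≤ N1 := by rw [hN1]; nlinarith
  have : (n : ℝ) ≤ N1 := by exact_mod_cast h4
  linarith

end Pool.Agent.H707Z.PV
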