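import Mathlib

set_option autoImplicit false

namespace Pool.Agent.H707Z.PV

open Real

/-- `cosh` of the distance to the axis, in terms of the coordinate `s`. -/
noncomputable def cc (s : ℝ) : ℝ := √(1 + s ^ 2)

/-- `cosh` of the hyperbolic distance in the coordinates `(t, s)`. -/
noncomputable def CH (p q : ℝ × ℝ) : ℝ :=
  cc p.2 * cc q.2 * cosh (p.1 - q.1) - p.2 * q.2

lemma cc_sq (s : ℝ) : cc s ^ 2 = 1 + s ^ 2 := by
  unfold cc; rw [Real.sq_sqrt]; positivity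

lemma one_le_cc (s : ℝ) : 1 ≤ cc s := by
  unfold cc; rw [Real.one_le_sqrt]; nlinarith [sq_nonneg s]

lemma cc_pos (s : ℝ) : 0 < cc s := lt_of_lt_of_le one_pos (one_le_cc s)

lemma abs_le_cc (s : ℝ) : |s| ≤ cc s := by
  unfold cc; apply Real.abs_le_sqrt; linarith

lemma cc_le (s : ℝ) : cc s ≤ 1 + |s| := by
  unfold cc; rw [Real.sqrt_le_left (by positivity)]
  nlinarith [abs_nonneg s, sq_abs s]

lemma cc_zero : cc 0 = 1 := by simp [cc]

lemma continuous_cc : Continuous cc := by unfold cc; fun_prop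

lemma continuous_CH_left (q : ℝ × ℝ) : Continuous fun p => CH p q := by
  unfold CH
  have := continuous_cc
  fun_prop

lemma cosh_le_exp_abs (x : ℝ) : cosh x ≤ exp |x| := by
  rw [← Real.cosh_abs, Real.cosh_eq]
  have : exp (-|x|) ≤ exp |x| := exp_le_exp.2 (by linarith [abs_nonneg x])
  linarith

lemma exp_abs_le_cosh (x : ℝ) : exp |x| ≤ 2 * cosh x := by
  rw [← Real.cosh_abs, Real.cosh_eq]
  have := exp_pos (-|x|)
  linarith

lemma CH_self (p : ℝ × ℝ) : CH p p = 1 := by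
  unfold CH
  have := cc_sq p.2
  simp only [sub_self, cosh_zero, mul_one]
  nlinarith

lemma eq_of_CH_le_one {p q : ℝ × ℝ} (h : CH p q ≤ 1) : p = q := by
  unfold CH at h
  have h1 := cc_sq p.2
  have h2 := cc_sq q.2
  have hp := one_le_cc p.2
  have hq := one_le_cc q.2
  have hc := Real.one_le_cosh (p.1 - q.1)
  have hpq : 1 ≤ cc p.2 * cc q.2 := by nlinarith
  have h3 : cc p.2 * cc q.2 ≤ 1 + p.2 * q.2 := by nlinarith
  have h4 : (cc p.2 * cc q.2) ^ 2 ≤ (1 + p.2 * q.2) ^ 2 := by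
    apply pow_le_pow_left₀ (by linarith) h3
  have h5 : (p.2 - q.2) ^ 2 ≤ 0 := by
    rw [mul_pow, h1, h2] at h4; nlinarith
  have h6 : p.2 = q.2 := by
    have : p.2 - q.2 = 0 := by
      apply pow_eq_zero_iff (two_ne_zero) |>.1
      exact le_antisymm h5 (sq_nonneg _)
    linarith
  have h7 : cosh (p.1 - q.1) ≤ 1 := by
    rw [← h6] at h
    by_contra hcon
    push Not at hcon
    nlinarith
  have h8 : p.1 - q.1 = 0 := by
    by_contra hne
    have := Real.one_lt_cosh.2 hne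
    linarith
  exact Prod.ext (by linarith) h6

lemma CH_lower (p z : ℝ × ℝ) :
    cc z.2 * cosh (p.1 - z.1) ≤ 2 * cc p.2 * CH p z := by
  unfold CH
  have h1 := cc_sq p.2
  have hp := one_le_cc p.2
  have hz := one_le_cc z.2
  have hc := Real.one_le_cosh (p.1 - z.1)
  have ha := abs_le_cc p.2
  have hb := abs_le_cc z.2
  have h2 : p.2 * z.2 ≤ |p.2| * (cc z.2 * cosh (p.1 - z.1)) := by
    calc p.2 * z.2 ≤ |p.2 * z.2| := le_abs_self _
      _ = |p.2| * |z.2| := abs_mul _ _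
      _ ≤ |p.2| * (cc z.2 * cosh (p.1 - z.1)) := by
        apply mul_le_mul_of_nonneg_left _ (abs_nonneg _)
        nlinarith
  set W := cc z.2 * cosh (p.1 - z.1) with hW
  have hW1 : 0 ≤ W := by positivity
  have h3 : 1 ≤ 2 * cc p.2 * (cc p.2 - |p.2|) := by
    have : (cc p.2 + |p.2|) * (cc p.2 - |p.2|) = 1 := by
      have := sq_abs p.2
      nlinarith
    nlinarith
  have h4 : cc p.2 * cc z.2 * cosh (p.1 - z.1) = cc p.2 * W := by rw [hW]; ring
  rw [h4]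
  calc W = W * 1 := by ring
    _ ≤ W * (2 * cc p.2 * (cc p.2 - |p.2|)) := mul_le_mul_of_nonneg_left h3 hW1
    _ = 2 * cc p.2 * (cc p.2 * W - |p.2| * W) := by ring
    _ ≤ 2 * cc p.2 * (cc p.2 * W - p.2 * z.2) := by
      apply mul_le_mul_of_nonneg_left _ (by positivity)
      linarith

lemma abs_mul_le_cc (a b : ℝ) : |a * b| ≤ cc a * cc b := by
  rw [abs_mul]
  exact mul_le_mul (abs_le_cc a) (abs_le_cc b) (abs_nonneg _) (cc_pos a).le

lemma CH_upper (p g : ℝ × ℝ) :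
    CH p g ≤ 2 * cc p.2 * cc g.2 * exp |p.1 - g.1| := by
  unfold CH
  have h1 := abs_mul_le_cc p.2 g.2
  have h2 := cosh_le_exp_abs (p.1 - g.1)
  have h3 : 1 ≤ exp |p.1 - g.1| := Real.one_le_exp (abs_nonneg _)
  have h4 := neg_abs_le (p.2 * g.2)
  have h5 : 0 < cc p.2 * cc g.2 := mul_pos (cc_pos _) (cc_pos _)
  nlinarith

/-- First comparison. -/
lemma comp_three {p z g : ℝ × ℝ} (h : CH p z ≤ CH p g) :
    cc z.2 * exp |p.1 - z.1| ≤ 8 * cc p.2 ^ 2 * cc g.2 * exp |p.1 - g.1| := by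
  have h1 := CH_lower p z
  have h2 := CH_upper p g
  have h3 := exp_abs_le_cosh (p.1 - z.1)
  have hp := cc_pos p.2
  have hz := cc_pos z.2
  calc cc z.2 * exp |p.1 - z.1| ≤ cc z.2 * (2 * cosh (p.1 - z.1)) :=
        mul_le_mul_of_nonneg_left h3 hz.le
    _ = 2 * (cc z.2 * cosh (p.1 - z.1)) := by ring
    _ ≤ 2 * (2 * cc p.2 * CH p z) := by linarith
    _ ≤ 2 * (2 * cc p.2 * (2 * cc p.2 * cc g.2 * exp |p.1 - g.1|)) := by
        have := mul_le_mul_of_nonneg_left (h.trans h2) (by positivity : 0 ≤ 2 * cc p.2)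
        linarith
    _ = _ := by ring

/-- Second comparison. -/
lemma comp_one {p x g : ℝ × ℝ} (h : CH p x ≤ CH p g) :
    cc x.2 * (cosh (p.1 - x.1) - 1) ≤ 2 * cc g.2 * exp |p.1 - g.1| := by
  have h2 := CH_upper p g
  have hp := cc_pos p.2
  have h1 : cc p.2 * (cc x.2 * (cosh (p.1 - x.1) - 1)) ≤ CH p x := by
    unfold CH
    have := abs_mul_le_cc p.2 x.2
    have := le_abs_self (p.2 * x.2)
    nlinarith
  have h3 : cc p.2 * (cc x.2 * (cosh (p.1 - x.1) - 1)) ≤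
      cc p.2 * (2 * cc g.2 * exp |p.1 - g.1|) := by nlinarith
  exact le_of_mul_le_mul_left h3 hp

lemma cosh_sub_one_ge {δ D : ℝ} (hδ : 0 ≤ δ) (hD : δ ≤ |D|) :
    (1 - exp (-δ)) ^ 2 / 2 * exp |D| ≤ cosh D - 1 := by
  rw [← Real.cosh_abs, Real.cosh_eq]
  have h1 : exp (-|D|) ≤ exp (-δ) := exp_le_exp.2 (by linarith)
  have h2 : exp (-δ) ≤ 1 := exp_le_one_iff.2 (by linarith)
  have h3 : exp |D| * exp (-|D|) = 1 := by rw [← exp_add]; simp
  have h4 : (1 - exp (-δ)) ^ 2 ≤ (1 - exp (-|D|)) ^ 2 := by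
    apply pow_le_pow_left₀ (by linarith) (by linarith)
  have h5 := exp_pos |D|
  have h6 : (1 - exp (-|D|)) ^ 2 * exp |D| = exp |D| + exp (-|D|) - 2 := by
    have : (1 - exp (-|D|)) ^ 2 * exp |D| =
      exp |D| - 2 * (exp |D| * exp (-|D|)) + exp (-|D|) * (exp |D| * exp (-|D|)) := by ring
    rw [this, h3]; ring
  have h7 := mul_le_mul_of_nonneg_right h4 h5.le
  linarith

lemma exp_one_le_three : exp 1 ≤ 3 := by
  have := Real.exp_one_lt_d9
  linarith

/-- The edge lemma. -/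
lemma edge_lemma {p x g : ℝ × ℝ} {τ δ B Y : ℝ} (h : CH p x ≤ CH p g) (hδ : 0 < δ)
    (hτ : τ ∈ Set.uIcc p.1 x.1) (hg : |g.1 - τ| ≤ 1) (hB : cc g.2 ≤ B)
    (hY : 6 * B ≤ (1 - exp (-δ)) ^ 2 / 2 * Y) :
    |τ - x.1| < δ ∨ cc x.2 * exp |τ - x.1| ≤ Y := by
  by_cases h0 : |τ - x.1| < δ
  · exact Or.inl h0
  right
  push Not at h0
  have hsplit : |p.1 - x.1| = |p.1 - τ| + |τ - x.1| := by
    rcases Set.mem_uIcc.1 hτ with ⟨h1, h2⟩ | ⟨h1, h2⟩
    · rw [abs_of_nonpos (by linarith), abs_of_nonpos (by linarith), abs_of_nonpos (by linarith)]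
      ring
    · rw [abs_of_nonneg (by linarith), abs_of_nonneg (by linarith), abs_of_nonneg (by linarith)]
      ring
  have hD : δ ≤ |p.1 - x.1| := by linarith [abs_nonneg (p.1 - τ)]
  have h1 := cosh_sub_one_ge hδ.le hD
  have h2 := comp_one h
  have h3 : |p.1 - g.1| ≤ |p.1 - τ| + 1 := by
    have : p.1 - g.1 = (p.1 - τ) - (g.1 - τ) := by ring
    rw [this]
    exact (abs_sub _ _).trans (by linarith)
  have h4 : exp |p.1 - g.1| ≤ exp |p.1 - τ| * 3 := by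
    calc exp |p.1 - g.1| ≤ exp (|p.1 - τ| + 1) := exp_le_exp.2 h3
      _ = exp |p.1 - τ| * exp 1 := exp_add _ _
      _ ≤ _ := mul_le_mul_of_nonneg_left exp_one_le_three (exp_pos _).le
  set κ := (1 - exp (-δ)) ^ 2 / 2 with hκ
  have hκ0 : 0 < κ := by
    have : exp (-δ) < 1 := exp_lt_one_iff.2 (by linarith)
    have : 0 < 1 - exp (-δ) := by linarith
    positivity
  have hx := cc_pos x.2
  have hgp := cc_pos g.2
  have he := exp_pos |p.1 - τ|
  rw [hsplit, exp_add] at h1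
  have h5 : cc x.2 * (κ * (exp |p.1 - τ| * exp |τ - x.1|)) ≤ 2 * B * (exp |p.1 - τ| * 3) := by
    calc _ ≤ cc x.2 * (cosh (p.1 - x.1) - 1) := mul_le_mul_of_nonneg_left h1 hx.le
      _ ≤ 2 * cc g.2 * exp |p.1 - g.1| := h2
      _ ≤ _ := by
        apply mul_le_mul (by linarith) h4 (exp_pos _).le (by linarith)
  have h6 : exp |p.1 - τ| * (κ * (cc x.2 * exp |τ - x.1|)) ≤ exp |p.1 - τ| * (κ * Y) := by
    nlinarith
  have h7 := le_of_mul_le_mul_left h6 he
  exact le_of_mul_le_mul_left h7 hκ0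

end Pool.Agent.H707Z.PV
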