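import Pool.Agent.H707Z.PVDefs
import Pool.Agent.H707Z.PVGeom

set_option autoImplicit false

namespace Pool.Agent.H707Z.PV

open Real Set MeasureTheory

/-- The coordinates `(t, s)` of the point `(x, y)` of the disk. -/
noncomputable def F2 (p : ℝ × ℝ) : ℝ × ℝ :=
  ((log ((1 + p.1) ^ 2 + p.2 ^ 2) - log ((1 - p.1) ^ 2 + p.2 ^ 2)) / 2,
    2 * p.2 / (1 - p.1 ^ 2 - p.2 ^ 2))

def D2 : Set (ℝ × ℝ) := {p | p.1 ^ 2 + p.2 ^ 2 < 1}

lemma D2_A {p : ℝ × ℝ} (h : p ∈ D2) : 0 < (1 + p.1) ^ 2 + p.2 ^ 2 := by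
  have h' : p.1 ^ 2 + p.2 ^ 2 < 1 := h
  have : -1 < p.1 := by nlinarith [sq_nonneg p.2, sq_nonneg (p.1 + 1)]
  have : 0 < 1 + p.1 := by linarith
  positivity

lemma D2_B {p : ℝ × ℝ} (h : p ∈ D2) : 0 < (1 - p.1) ^ 2 + p.2 ^ 2 := by
  have h' : p.1 ^ 2 + p.2 ^ 2 < 1 := h
  have : p.1 < 1 := by nlinarith [sq_nonneg p.2, sq_nonneg (p.1 - 1)]
  have : 0 < 1 - p.1 := by linarith
  positivity

lemma D2_N {p : ℝ × ℝ} (h : p ∈ D2) : 0 < 1 - p.1 ^ 2 - p.2 ^ 2 := by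
  have h' : p.1 ^ 2 + p.2 ^ 2 < 1 := h
  linarith

lemma F2_hyp {p : ℝ × ℝ} (h : p ∈ D2) :
    cc (F2 p).2 * cosh (F2 p).1 = (1 + p.1 ^ 2 + p.2 ^ 2) / (1 - p.1 ^ 2 - p.2 ^ 2) ∧
    cc (F2 p).2 * sinh (F2 p).1 = 2 * p.1 / (1 - p.1 ^ 2 - p.2 ^ 2) := by
  have hA := D2_A h
  have hB := D2_B h
  have hN := D2_N h
  obtain ⟨a, ha0, ha⟩ : ∃ a : ℝ, 0 < a ∧ a ^ 2 = (1 + p.1) ^ 2 + p.2 ^ 2 :=
    ⟨√_, Real.sqrt_pos.2 hA, Real.sq_sqrt hA.le⟩
  obtain ⟨b, hb0, hb⟩ : ∃ b : ℝ, 0 < b ∧ b ^ 2 = (1 - p.1) ^ 2 + p.2 ^ 2 :=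
    ⟨√_, Real.sqrt_pos.2 hB, Real.sq_sqrt hB.le⟩
  have ht : (F2 p).1 = log a - log b := by
    simp only [F2]
    rw [← ha, ← hb, Real.log_pow, Real.log_pow]
    push_cast; ring
  have he : exp (F2 p).1 = a / b := by
    rw [ht, exp_sub, exp_log ha0, exp_log hb0]
  have he' : exp (-(F2 p).1) = b / a := by
    rw [exp_neg, he, inv_div]
  have hc : cc (F2 p).2 = a * b / (1 - p.1 ^ 2 - p.2 ^ 2) := by
    unfold cc
    rw [Real.sqrt_eq_iff_mul_self_eq (by positivity) (by positivity)]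
    simp only [F2]
    field_simp
    rw [ha, hb]; ring
  rw [hc, cosh_eq, sinh_eq, he, he']
  constructor
  · field_simp
    rw [ha, hb]; ring
  · field_simp
    rw [ha, hb]; ring

lemma CH_eq (p q : ℝ × ℝ) : CH p q = (cc p.2 * cosh p.1) * (cc q.2 * cosh q.1) -
    (cc p.2 * sinh p.1) * (cc q.2 * sinh q.1) - p.2 * q.2 := by
  unfold CH
  rw [cosh_sub]; ring

lemma CH_F2 {p q : ℝ × ℝ} (hp : p ∈ D2) (hq : q ∈ D2) :
    CH (F2 p) (F2 q) = 1 + 2 * ((p.1 - q.1) ^ 2 + (p.2 - q.2) ^ 2) /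
      ((1 - p.1 ^ 2 - p.2 ^ 2) * (1 - q.1 ^ 2 - q.2 ^ 2)) := by
  rw [CH_eq, (F2_hyp hp).1, (F2_hyp hp).2, (F2_hyp hq).1, (F2_hyp hq).2]
  have h1 := (D2_N hp).ne'
  have h2 := (D2_N hq).ne'
  simp only [F2]
  field_simp
  ring

lemma F2_injOn : InjOn F2 D2 := by
  intro p hp q hq h
  have h1 := CH_F2 hp hq
  rw [h, CH_self] at h1
  have h2 := D2_N hp
  have h3 := D2_N hq
  have h4 : 2 * ((p.1 - q.1) ^ 2 + (p.2 - q.2) ^ 2) /
      ((1 - p.1 ^ 2 - p.2 ^ 2) * (1 - q.1 ^ 2 - q.2 ^ 2)) = 0 := by linarith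
  rw [div_eq_zero_iff] at h4
  rcases h4 with h4 | h4
  · exact Prod.ext (by nlinarith [sq_nonneg (p.1 - q.1), sq_nonneg (p.2 - q.2)])
      (by nlinarith [sq_nonneg (p.1 - q.1), sq_nonneg (p.2 - q.2)])
  · exact absurd h4 (by positivity)

lemma F2_surj (q : ℝ × ℝ) : ∃ p ∈ D2, F2 p = q := by
  set X0 := cc q.2 * cosh q.1 with hX0
  set X1 := cc q.2 * sinh q.1 with hX1
  have hc := one_le_cc q.2
  have h0 : 1 ≤ X0 := by nlinarith [one_le_cosh q.1]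
  have hrel : X0 ^ 2 = 1 + X1 ^ 2 + q.2 ^ 2 := by
    rw [hX0, hX1, mul_pow, mul_pow, cosh_sq, mul_add, cc_sq]; ring
  have hN : 1 - (X1 / (1 + X0)) ^ 2 - (q.2 / (1 + X0)) ^ 2 = 2 / (1 + X0) := by
    field_simp
    nlinarith
  have hmem : (X1 / (1 + X0), q.2 / (1 + X0)) ∈ D2 := by
    have : 0 < 2 / (1 + X0) := by positivity
    show (X1 / (1 + X0)) ^ 2 + (q.2 / (1 + X0)) ^ 2 < 1
    linarith
  refine ⟨_, hmem, ?_⟩
  have h2 : (F2 (X1 / (1 + X0), q.2 / (1 + X0))).2 = q.2 := by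
    simp only [F2]
    rw [hN]; field_simp
  have h1 := (F2_hyp hmem).2
  rw [h2] at h1
  simp only at h1
  rw [hN] at h1
  have h3 : 2 * (X1 / (1 + X0)) / (2 / (1 + X0)) = X1 := by field_simp
  rw [h3, hX1] at h1
  exact Prod.ext (Real.sinh_injective (mul_left_cancel₀ (cc_pos _).ne' h1)) h2

/-- The derivative of `F2`. -/
noncomputable def dF2 (p : ℝ × ℝ) : ℝ × ℝ →L[ℝ] ℝ × ℝ :=
  (Matrix.toLin (.finTwoProd ℝ) (.finTwoProd ℝ)
    !![(1 + p.1) / ((1 + p.1) ^ 2 + p.2 ^ 2) + (1 - p.1) / ((1 - p.1) ^ 2 + p.2 ^ 2),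
        p.2 / ((1 + p.1) ^ 2 + p.2 ^ 2) - p.2 / ((1 - p.1) ^ 2 + p.2 ^ 2);
      4 * p.1 * p.2 / (1 - p.1 ^ 2 - p.2 ^ 2) ^ 2,
        2 / (1 - p.1 ^ 2 - p.2 ^ 2) + 4 * p.2 ^ 2 / (1 - p.1 ^ 2 - p.2 ^ 2) ^ 2]).toContinuousLinearMap

lemma hasFDerivAt_F2 {p : ℝ × ℝ} (h : p ∈ D2) : HasFDerivAt F2 (dF2 p) p := by
  have hA := (D2_A h).ne'
  have hB := (D2_B h).ne'
  have hN := (D2_N h).ne'
  unfold dF2
  rw [Matrix.toLin_finTwoProd_toContinuousLinearMap]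
  have f1 : HasFDerivAt (fun p : ℝ × ℝ => p.1) (ContinuousLinearMap.fst ℝ ℝ ℝ) p := hasFDerivAt_fst
  have f2 : HasFDerivAt (fun p : ℝ × ℝ => p.2) (ContinuousLinearMap.snd ℝ ℝ ℝ) p := hasFDerivAt_snd
  apply HasFDerivAt.prodMk
  · have a1 := (((f1.const_add 1).pow 2).add (f2.pow 2)).log hA
    have a2 := (((f1.const_sub 1).pow 2).add (f2.pow 2)).log hB
    have a3 := (a1.sub a2).mul_const (2⁻¹ : ℝ)
    refine HasFDerivAt.congr_fderiv (a3.congr_of_eventuallyEq (Filter.Eventually.of_forall ?_)) ?_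
    · intro q; simp [div_eq_mul_inv]
    · ext <;> simp <;> field_simp <;> ring
  · have a1 := ((f1.pow 2).const_sub 1).sub (f2.pow 2)
    have a2 := (f2.const_mul 2).mul ((hasDerivAt_inv hN).comp_hasFDerivAt p a1)
    refine HasFDerivAt.congr_fderiv (a2.congr_of_eventuallyEq (Filter.Eventually.of_forall ?_)) ?_
    · intro q; simp [div_eq_mul_inv]
    · ext <;> simp <;> field_simp <;> ring

lemma det_dF2 {p : ℝ × ℝ} (h : p ∈ D2) : (dF2 p).det = 4 / (1 - p.1 ^ 2 - p.2 ^ 2) ^ 2 := by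
  have hA := (D2_A h).ne'
  have hB := (D2_B h).ne'
  have hN := (D2_N h).ne'
  unfold dF2
  simp only [LinearMap.det_toContinuousLinearMap, LinearMap.det_toLin, Matrix.det_fin_two_of]
  field_simp
  ring

lemma measurable_F2 : Measurable F2 := by
  unfold F2
  fun_prop

lemma measurableSet_D2 : MeasurableSet D2 := by
  unfold D2
  exact measurableSet_lt (by fun_prop) (by fun_prop)

lemma area_F2 {A : Set (ℝ × ℝ)} (hA : MeasurableSet A) :
    ∫⁻ p in D2 ∩ F2 ⁻¹' A, ENNReal.ofReal (4 / (1 - p.1 ^ 2 - p.2 ^ 2) ^ 2) = volume A := by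
  have hm : MeasurableSet (D2 ∩ F2 ⁻¹' A) := measurableSet_D2.inter (measurable_F2 hA)
  have h1 := lintegral_abs_det_fderiv_eq_addHaar_image (volume : Measure (ℝ × ℝ)) hm
    (f := F2) (f' := dF2) (fun p hp => (hasFDerivAt_F2 hp.1).hasFDerivWithinAt)
    (F2_injOn.mono inter_subset_left)
  have h2 : F2 '' (D2 ∩ F2 ⁻¹' A) = A := by
    ext q
    constructor
    · rintro ⟨p, hp, rfl⟩
      exact hp.2
    · intro hq
      obtain ⟨p, hp, rfl⟩ := F2_surj q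
      exact ⟨p, ⟨hp, hq⟩, rfl⟩
  rw [h2] at h1
  rw [← h1]
  apply setLIntegral_congr_fun hm
  intro p hp
  simp only
  rw [det_dF2 hp.1, abs_of_nonneg (by positivity)]

/-- The coordinates `(t, s)` of a point of the disk. -/
noncomputable def F (z : ℂ) : ℝ × ℝ := F2 (z.re, z.im)

lemma norm_sq_eq (z : ℂ) : ‖z‖ ^ 2 = z.re ^ 2 + z.im ^ 2 := by
  rw [Complex.sq_norm, Complex.normSq_apply]; ring

lemma mem_disk_iff {z : ℂ} : z ∈ disk ↔ (z.re, z.im) ∈ D2 := by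
  unfold disk D2
  rw [mem_ball_zero_iff, mem_ofPred_eq, ← norm_sq_eq, sq_lt_one_iff₀ (norm_nonneg _)]

lemma measurable_F : Measurable F := by
  unfold F
  exact measurable_F2.comp (by fun_prop)

lemma measurableSet_disk : MeasurableSet disk := Metric.isOpen_ball.measurableSet

lemma harea_preimage {A : Set (ℝ × ℝ)} (hA : MeasurableSet A) :
    harea (F ⁻¹' A) = volume A := by
  rw [harea, withDensity_apply _ (measurable_F hA), Measure.restrict_restrict (measurable_F hA),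
    ← area_F2 hA, ← Complex.volume_preserving_equiv_real_prod.setLIntegral_comp_preimage_emb
      Complex.measurableEquivRealProd.measurableEmbedding]
  have : F ⁻¹' A ∩ disk = Complex.measurableEquivRealProd ⁻¹' (D2 ∩ F2 ⁻¹' A) := by
    ext z
    simp [mem_disk_iff, F, and_comm]
  rw [this]
  congr 1
  ext z
  simp only [Complex.measurableEquivRealProd_apply, norm_sq_eq]
  congr 3
  ring

lemma CH_F {p q : ℂ} (hp : p ∈ disk) (hq : q ∈ disk) :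
    CH (F p) (F q) = 1 + 2 * ‖p - q‖ ^ 2 / ((1 - ‖p‖ ^ 2) * (1 - ‖q‖ ^ 2)) := by
  unfold F
  rw [CH_F2 (mem_disk_iff.1 hp) (mem_disk_iff.1 hq), norm_sq_eq, norm_sq_eq, norm_sq_eq]
  simp only [Complex.sub_re, Complex.sub_im]
  congr 3 <;> ring

lemma one_le_CH (p q : ℝ × ℝ) : 1 ≤ CH p q := by
  by_contra h
  push Not at h
  have := eq_of_CH_le_one h.le
  rw [this, CH_self] at h
  exact lt_irrefl _ h

lemma hdist_eq {p q : ℂ} (hp : p ∈ disk) (hq : q ∈ disk) :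
    hdist p q = arcosh (CH (F p) (F q)) := by
  rw [hdist, CH_F hp hq]

lemma hdist_le_iff {p x y : ℂ} (hp : p ∈ disk) (hx : x ∈ disk) (hy : y ∈ disk) :
    hdist p x ≤ hdist p y ↔ CH (F p) (F x) ≤ CH (F p) (F y) := by
  rw [hdist_eq hp hx, hdist_eq hp hy]
  exact arcosh_le_arcosh (one_pos.trans_le (one_le_CH _ _)) (one_pos.trans_le (one_le_CH _ _))

lemma F_injOn : InjOn F disk := by
  intro p hp q hq h
  have := F2_injOn (mem_disk_iff.1 hp) (mem_disk_iff.1 hq) h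
  simp only [Prod.mk.injEq] at this
  exact Complex.ext this.1 this.2

lemma F_surj (q : ℝ × ℝ) : ∃ z ∈ disk, F z = q := by
  obtain ⟨p, hp, rfl⟩ := F2_surj q
  exact ⟨⟨p.1, p.2⟩, mem_disk_iff.2 hp, rfl⟩

/-- The position on the axis of the real point `r`. -/
noncomputable def sig (r : ℝ) : ℝ := (log ((1 + r) ^ 2) - log ((1 - r) ^ 2)) / 2

lemma F_ofReal (r : ℝ) : F (r : ℂ) = (sig r, 0) := by
  simp [F, F2, sig]

lemma F_neg_ofReal (r : ℝ) : F (-(r : ℂ)) = (-sig r, 0) := by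
  simp only [F, F2, sig, Complex.neg_re, Complex.ofReal_re, Complex.neg_im, Complex.ofReal_im]
  simp only [neg_zero, ne_eq, OfNat.ofNat_ne_zero, not_false_eq_true, zero_pow, add_zero,
    mul_zero, zero_div, Prod.mk.injEq, and_true, sub_neg_eq_add, ← sub_eq_add_neg]
  ring

lemma F_zero : F 0 = (0, 0) := by
  simp [F, F2]

lemma sig_nonneg {r : ℝ} (h0 : 0 ≤ r) (h1 : r < 1) : 0 ≤ sig r := by
  unfold sig
  have : log ((1 - r) ^ 2) ≤ log ((1 + r) ^ 2) := by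
    apply Real.log_le_log (by have : 0 < 1 - r := by linarith
                              positivity)
    nlinarith
  linarith

end Pool.Agent.H707Z.PV
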