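import Pool.Agent.H707Z.PVDisk
import Pool.Agent.H707Z.PVConn

set_option autoImplicit false

namespace Pool.Agent.H707Z.PV

open Real Set

lemma null_orth {v0 v1 v2 w0 w1 w2 : ℝ} (hw : w0 * w0 - w1 * w1 - w2 * w2 = 1)
    (h1 : v0 * w0 - v1 * w1 - v2 * w2 = 0) (h2 : v0 * v0 - v1 * v1 - v2 * v2 = 0) :
    v0 = 0 ∧ v1 = 0 ∧ v2 = 0 := by
  have h3 : v0 ^ 2 + (v1 * w2 - v2 * w1) ^ 2 = 0 := by
    have e1 : v0 * w0 = v1 * w1 + v2 * w2 := by linarith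
    have e2 : (v0 * w0) ^ 2 = (v1 * w1 + v2 * w2) ^ 2 := by rw [e1]
    have e3 : v0 ^ 2 = v1 ^ 2 + v2 ^ 2 := by linarith
    have e4 : w0 ^ 2 = 1 + w1 ^ 2 + w2 ^ 2 := by linarith
    rw [mul_pow, e4, e3] at e2
    rw [e3]
    linarith
  have h4 : v0 = 0 := by nlinarith [sq_nonneg v0, sq_nonneg (v1 * w2 - v2 * w1)]
  subst h4
  exact ⟨rfl, by nlinarith [sq_nonneg v1, sq_nonneg v2], by nlinarith [sq_nonneg v1, sq_nonneg v2]⟩

lemma seg_convex {p q w x y : ℝ × ℝ} {a b : ℝ} (ha : 0 ≤ a) (hb : 0 ≤ b) (hab : 0 < a + b)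
    (h1 : CH p w = cosh a) (h2 : CH w q = cosh b) (h3 : CH p q = cosh (a + b))
    (hp : CH p x ≤ CH p y) (hq : CH q x ≤ CH q y) : CH w x ≤ CH w y := by
  have ep := CH_self p
  have eq := CH_self q
  have ew := CH_self w
  have hS : 0 < sinh (a + b) := sinh_pos_iff.2 hab
  have hsa : 0 ≤ sinh a := sinh_nonneg_iff.2 ha
  have hsb : 0 ≤ sinh b := sinh_nonneg_iff.2 hb
  rw [cosh_add] at h3
  rw [sinh_add] at hS
  have ca := cosh_sq a
  have cb := cosh_sq b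
  simp only [CH_eq] at *
  generalize cc p.2 * cosh p.1 = p0 at *
  generalize cc p.2 * sinh p.1 = p1 at *
  generalize cc q.2 * cosh q.1 = q0 at *
  generalize cc q.2 * sinh q.1 = q1 at *
  generalize cc w.2 * cosh w.1 = w0 at *
  generalize cc w.2 * sinh w.1 = w1 at *
  generalize cc x.2 * cosh x.1 = x0 at *
  generalize cc x.2 * sinh x.1 = x1 at *
  generalize cc y.2 * cosh y.1 = y0 at *
  generalize cc y.2 * sinh y.1 = y1 at *
  generalize p.2 = p2 at *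
  generalize q.2 = q2 at *
  generalize w.2 = w2 at *
  generalize x.2 = x2 at *
  generalize y.2 = y2 at *
  generalize cosh a = Ca at *
  generalize cosh b = Cb at *
  generalize sinh a = Sa at *
  generalize sinh b = Sb at *
  set S := Sa * Cb + Ca * Sb with hSdef
  obtain ⟨z0, z1, z2⟩ := null_orth (v0 := S * w0 - Sb * p0 - Sa * q0)
    (v1 := S * w1 - Sb * p1 - Sa * q1) (v2 := S * w2 - Sb * p2 - Sa * q2) ew
    (by linear_combination S * ew - Sb * h1 - Sa * h2 + hSdef)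
    (by
      linear_combination S ^ 2 * ew + Sb ^ 2 * ep + Sa ^ 2 * eq - 2 * S * Sb * h1 -
        2 * S * Sa * h2 + 2 * Sa * Sb * h3 - Sb ^ 2 * ca - Sa ^ 2 * cb +
        (S - (Sa * Cb + Ca * Sb)) * hSdef)
  have key : S * ((w0 * y0 - w1 * y1 - w2 * y2) - (w0 * x0 - w1 * x1 - w2 * x2)) =
      Sb * ((p0 * y0 - p1 * y1 - p2 * y2) - (p0 * x0 - p1 * x1 - p2 * x2)) +
      Sa * ((q0 * y0 - q1 * y1 - q2 * y2) - (q0 * x0 - q1 * x1 - q2 * x2)) := by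
    linear_combination (y0 - x0) * z0 - (y1 - x1) * z1 - (y2 - x2) * z2
  have h4 : 0 ≤ S * ((w0 * y0 - w1 * y1 - w2 * y2) - (w0 * x0 - w1 * x1 - w2 * x2)) := by
    rw [key]
    exact add_nonneg (mul_nonneg hsb (by linarith)) (mul_nonneg hsa (by linarith))
  have := (mul_nonneg_iff_of_pos_left hS).1 h4
  linarith

lemma mem_cell_iff {S : Set ℂ} (hS : S ⊆ disk) {p : ℂ} (hp : p ∈ disk) (x : S) :
    p ∈ cell S x ↔ Cl (fun z : S => F z) (F p) x := by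
  unfold cell Cl
  simp only [mem_ofPred_eq, hp, true_and, Subtype.forall]
  refine forall₂_congr fun y hy => hdist_le_iff hp (hS x.2) (hS hy)

lemma cosh_hdist {p q : ℂ} (hp : p ∈ disk) (hq : q ∈ disk) :
    CH (F p) (F q) = cosh (hdist p q) := by
  rw [hdist_eq hp hq, cosh_arcosh (one_le_CH _ _)]

lemma hdist_nonneg {p q : ℂ} (hp : p ∈ disk) (hq : q ∈ disk) : 0 ≤ hdist p q := by
  rw [hdist_eq hp hq]
  exact arcosh_nonneg (one_le_CH _ _)

lemma hsegment_subset {S : Set ℂ} (hS : S ⊆ disk) {p q : ℂ} (hpq : p ≠ q) {x : ℂ} (hx : x ∈ S)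
    (hp : p ∈ cell S x) (hq : q ∈ cell S x) : hsegment p q ⊆ cell S x := by
  rintro w ⟨hw, hw'⟩
  refine ⟨hw, fun y hy => ?_⟩
  rw [hdist_le_iff hw (hS hx) (hS hy)]
  refine seg_convex (hdist_nonneg hp.1 hw) (hdist_nonneg hw hq.1) ?_ (cosh_hdist hp.1 hw)
    (cosh_hdist hw hq.1) (by rw [hw']; exact cosh_hdist hp.1 hq.1)
    ((hdist_le_iff hp.1 (hS hx) (hS hy)).1 (hp.2 y hy))
    ((hdist_le_iff hq.1 (hS hx) (hS hy)).1 (hq.2 y hy))
  rw [hw', hdist_eq hp.1 hq.1]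
  apply arcosh_pos
  by_contra hcon
  exact hpq (F_injOn hp.1 hq.1 (eq_of_CH_le_one (not_lt.1 hcon)))

lemma setup_voronoi {S : Set ℂ} (hS : S ⊆ disk)
    (hlf : ∀ N : ℕ, {z : S | |(F z).1| ≤ N ∧ |(F z).2| ≤ N}.Finite) (hne : Nonempty S) :
    Setup (fun z : S => F z) (voronoiGraph S) where
  inj := fun x y h => Subtype.ext (F_injOn (hS x.2) (hS y.2) h)
  adj1 := by
    rintro x y ⟨-, p, hp, q, hq, -, h⟩
    have hpm : p ∈ hsegment p q := ⟨hp, by simp [hdist]⟩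
    exact ⟨F p, (mem_cell_iff hS hp x).1 (h hpm).1, (mem_cell_iff hS hp y).1 (h hpm).2⟩
  adj2 := by
    intro x y p q hxy hpq h1 h2 h3 h4
    obtain ⟨p, hp, rfl⟩ := F_surj p
    obtain ⟨q, hq, rfl⟩ := F_surj q
    have hpq' : p ≠ q := fun h => hpq (by rw [h])
    exact ⟨hxy, p, hp, q, hq, hpq', subset_inter
      (hsegment_subset hS hpq' x.2 ((mem_cell_iff hS hp x).2 h1) ((mem_cell_iff hS hq x).2 h3))
      (hsegment_subset hS hpq' y.2 ((mem_cell_iff hS hp y).2 h2) ((mem_cell_iff hS hq y).2 h4))⟩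
  lf := hlf
  ne := hne

end Pool.Agent.H707Z.PV
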