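import Pool.Agent.H707Z.PVProb2
import Pool.Agent.H707Z.PVSetup

set_option autoImplicit false

namespace Pool.Agent.H707Z.PV

open Real Set MeasureTheory ProbabilityTheory Filter Topology
open scoped ENNReal NNReal

lemma nice_of {V : Type} (pos : V → ℝ × ℝ) (K A J : ℕ)
    (h2 : ∀ m : ℤ, ∃ k : ℕ,
      (pos ⁻¹' (Ico (m : ℝ) (m + 1) ×ˢ Ioo (-((k : ℝ) + 1)) (k + 1))).encard ≠ 0)
    (h3 : ∀ (n : ℕ) (k : Finset.Icc (-(n : ℤ)) n → ℕ), (pos ⁻¹' Aset (extz n k) n).encard = 0 →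
      ((∑ m ∈ Finset.Icc (-(n : ℤ)) n, extz n k m : ℕ) : ℕ∞) +
        (pos ⁻¹' Bset (extz n k) n).encard ≤ ((K * (n + A) : ℕ) : ℕ∞))
    (h4 : ∀ m : ℤ, (pos ⁻¹' Rset J m).encard ≤ ((m.natAbs + A : ℕ) : ℕ∞)) :
    ∃ r, Nice pos r K A J := by
  classical
  have hex : ∀ m : ℤ, ∃ k : ℕ, ∃ g, ⌊(pos g).1⌋ = m ∧ |(pos g).2| < k + 1 := by
    intro m
    obtain ⟨k, hk⟩ := h2 m
    obtain ⟨g, hg1, hg2⟩ := encard_ne_zero.1 hk
    exact ⟨k, g, Int.floor_eq_iff.2 hg1, abs_lt.2 hg2⟩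
  let r : ℤ → ℕ := fun m => Nat.find (hex m)
  refine ⟨r, fun m => Nat.find_spec (hex m), fun n => ?_, h4⟩
  have hext : ∀ m ∈ Finset.Icc (-(n : ℤ)) n, extz n (fun i => r i) m = r m := by
    intro m hm
    simp only [extz, hm, dif_pos]
  have hB : Bset (extz n fun i => r i) n = Bset r n := by
    ext p
    simp only [Bset, mem_ofPred_eq]
    refine and_congr_right fun hp => ?_
    rw [hext _ (Finset.mem_Icc.2 (abs_le.1 hp))]
  have := h3 n (fun i => r i) (by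
    rw [encard_eq_zero, eq_empty_iff_forall_notMem]
    rintro g ⟨hg1, hg2⟩
    simp only at hg2
    rw [hext _ (Finset.mem_Icc.2 (abs_le.1 hg1))] at hg2
    have hg3 : |(pos g).2| < r ⌊(pos g).1⌋ := abs_lt.2 hg2
    have hpos : 0 < r ⌊(pos g).1⌋ := by
      have : (0 : ℝ) < r ⌊(pos g).1⌋ := (abs_nonneg _).trans_lt hg3
      exact_mod_cast this
    apply Nat.find_min (hex ⌊(pos g).1⌋) (m := r ⌊(pos g).1⌋ - 1) (Nat.sub_lt hpos one_pos)
    refine ⟨g, rfl, ?_⟩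
    rw [Nat.cast_sub (show 1 ≤ _ from hpos)]
    push_cast
    linarith)
  rwa [hB, Finset.sum_congr rfl hext] at this

lemma near_of {V : Type} (pos : V → ℝ × ℝ) (R : ℕ) (τ : ℝ)
    (h : (pos ⁻¹' (Icc (τ - 1) (τ + 1) ×ˢ Icc (-(R : ℝ)) R)).encard ≠ 0) : Near pos R τ := by
  obtain ⟨g, ⟨h1, h2⟩, h3⟩ := encard_ne_zero.1 h
  exact ⟨g, abs_le.2 ⟨by linarith, by linarith⟩, abs_le.2 h3⟩

lemma deviation_le {S : Set ℂ} (hS : S ⊆ disk) {r : ℝ} (h0 : 0 ≤ r) (h1 : r < 1) {M : ℕ}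
    (hSet : Setup (fun z : S => F z) (voronoiGraph S))
    (ha : ∀ x y : S, Cl (fun z : S => F z) (-sig r, 0) x → Cl (fun z : S => F z) (sig r, 0) y →
      (voronoiGraph S).Reachable x y)
    (hb : ∀ (x y z : S) (γ : (voronoiGraph S).Walk x y), Cl (fun z : S => F z) (-sig r, 0) x →
      Cl (fun z : S => F z) (sig r, 0) y → Cl (fun z : S => F z) (0, 0) z →
      (γ.length : ℕ∞) = (voronoiGraph S).edist x y →
      ∃ v ∈ γ.support, (voronoiGraph S).edist v z ≤ M) :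
    deviation S r ≤ M := by
  have d1 : (r : ℂ) ∈ disk := by
    simp only [disk, mem_ball_zero_iff, Complex.norm_real, Real.norm_eq_abs, abs_of_nonneg h0, h1]
  have d2 : -(r : ℂ) ∈ disk := by
    simp only [disk, mem_ball_zero_iff, norm_neg, Complex.norm_real, Real.norm_eq_abs,
      abs_of_nonneg h0, h1]
  have d3 : (0 : ℂ) ∈ disk := by simp [disk]
  have e1 := mem_cell_iff hS d1
  have e2 := mem_cell_iff hS d2
  have e3 := mem_cell_iff hS d3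
  rw [F_ofReal] at e1
  rw [F_neg_ofReal] at e2
  rw [F_zero] at e3
  unfold deviation
  rw [if_pos]
  · refine iSup_le fun x => iSup_le fun y => iSup_le fun z => iSup_le fun γ => iSup_le fun h => ?_
    obtain ⟨v, hv, hv'⟩ := hb x y z γ ((e2 x).1 h.1) ((e1 y).1 h.2.1) ((e3 z).1 h.2.2.1) h.2.2.2
    exact iInf₂_le_of_le v hv hv'
  · obtain ⟨x, hx⟩ := hSet.exists_cell (-sig r, 0)
    obtain ⟨y, hy⟩ := hSet.exists_cell (sig r, 0)
    obtain ⟨z, hz⟩ := hSet.exists_cell (0, 0)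
    obtain ⟨γ, hγ⟩ := (ha x y hx hy).exists_walk_length_eq_edist
    exact ⟨x, y, z, γ, (e2 x).2 hx, (e1 y).2 hy, (e3 z).2 hz, hγ⟩

theorem tight (lam : ℝ≥0) (hlam : 0 < lam) {Ω : Type} [MeasurableSpace Ω] (P : Measure Ω)
    (X : Ω → Set ℂ) (hX : IsPoissonProcess P (lam • harea) X) :
    Tendsto (fun M : ℕ => ⨆ r ∈ Ico (0 : ℝ) 1, P {ω | (M : ℕ∞) < deviation (X ω) r})
      atTop (𝓝 0) := by
  let N : Set (ℝ × ℝ) → Ω → ℕ∞ := fun A ω => ((fun z : X ω => F z) ⁻¹' A).encard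
  have hN : Pois P N lam := by
    intro A hA hv
    have h1 : (lam • harea) (F ⁻¹' A) = lam * volume A := by
      rw [Measure.smul_apply, harea_preimage hA]; rfl
    have h2 := hX.law _ (measurable_F hA) (by rw [h1]; exact ENNReal.mul_ne_top (by simp) hv)
    rw [h1, ENNReal.toNNReal_mul, ENNReal.toNNReal_coe] at h2
    convert h2 using 2 with ω
    show (Subtype.val ⁻¹' (F ⁻¹' A) : Set (X ω)).encard = _
    rw [← Subtype.val_injective.encard_image, Subtype.image_preimage_coe]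
  rw [ENNReal.tendsto_nhds_zero]
  intro ε hε
  have hε5 : 0 < ε / 5 := ENNReal.div_pos hε.ne' (by simp)
  obtain ⟨K, hK⟩ := hN.E3 hlam
  obtain ⟨R, hR⟩ := (hN.E5 hlam hε5).exists
  obtain ⟨J, hJ⟩ := det K R
  obtain ⟨A, hA3, hA4⟩ := ((hK _ hε5).and (hN.E4 J hε5)).exists
  obtain ⟨M, hM⟩ := hJ A
  filter_upwards [eventually_ge_atTop M] with M' hM'
  refine iSup₂_le fun r hr => ?_
  let E5 : ℝ → Set Ω := fun τ => {ω | N (Icc (τ - 1) (τ + 1) ×ˢ Icc (-(R : ℝ)) R) ω = 0}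
  have hsub : {ω | (M' : ℕ∞) < deviation (X ω) r} ⊆
      (⋃ n : ℕ, {ω | N (Icc (-(n : ℝ)) n ×ˢ Icc (-(n : ℝ)) n) ω = ⊤}) ∪
      (⋃ m : ℤ, ⋂ k : ℕ, {ω | N (Ico (m : ℝ) (m + 1) ×ˢ Ioo (-((k : ℝ) + 1)) (k + 1)) ω = 0}) ∪
      (⋃ (n : ℕ) (k : Finset.Icc (-(n : ℤ)) n → ℕ), Ev N K A n (extz n k)) ∪
      (⋃ m : ℤ, {ω | ¬ N (Rset J m) ω ≤ ((m.natAbs + A : ℕ) : ℕ∞)}) ∪
      E5 (-sig r) ∪ E5 (sig r) ∪ E5 0 := by
    intro ω hω
    by_contra hcon
    simp only [mem_union, not_or, mem_iUnion, mem_iInter, not_exists, not_forall, mem_ofPred_eq,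
      not_not, Ev, not_and, E5] at hcon
    obtain ⟨⟨⟨⟨⟨⟨c1, c2⟩, c3⟩, c4⟩, c5⟩, c6⟩, c7⟩ := hcon
    obtain ⟨rr, hrr⟩ := nice_of (fun z : X ω => F z) K A J c2 c3 c4
    have hSet := setup_voronoi (hX.subset_disk ω) (fun n => by
      have := encard_ne_top_iff.1 (c1 n)
      refine this.subset ?_
      rintro z ⟨hz1, hz2⟩
      exact ⟨abs_le.1 hz1, abs_le.1 hz2⟩) (by
      obtain ⟨g, -⟩ := hrr.wit 0
      exact ⟨g⟩)
    obtain ⟨ha, hb⟩ := hM _ _ _ rr hSet hrr (sig r) (sig_nonneg hr.1 hr.2) (near_of _ _ _ c5)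
      (near_of _ _ _ c6) (near_of _ _ _ c7)
    have := deviation_le (hX.subset_disk ω) hr.1 hr.2 hSet ha hb
    have h2 : (M : ℕ∞) ≤ M' := by exact_mod_cast hM'
    exact absurd (this.trans h2) (not_le.2 hω)
  refine (measure_mono hsub).trans ?_
  have h5 : ε = 0 + 0 + ε / 5 + ε / 5 + ε / 5 + ε / 5 + ε / 5 := by
    have : ε / 5 + ε / 5 + ε / 5 + ε / 5 + ε / 5 = 5 * (ε / 5) := by ring
    rw [zero_add, zero_add, this, ENNReal.mul_div_cancel (by simp) (by simp)]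
  rw [h5]
  refine (measure_union_le _ _).trans (add_le_add ?_ (hR _))
  refine (measure_union_le _ _).trans (add_le_add ?_ (hR _))
  refine (measure_union_le _ _).trans (add_le_add ?_ (hR _))
  refine (measure_union_le _ _).trans (add_le_add ?_ hA4)
  refine (measure_union_le _ _).trans (add_le_add ?_ hA3)
  exact (measure_union_le _ _).trans (add_le_add hN.E1.le (hN.E2 hlam).le)

end Pool.Agent.H707Z.PV
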