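import Mathlib

set_option autoImplicit false

namespace Pool.Agent.H707Z.PV

open Real Set MeasureTheory ProbabilityTheory Filter Topology
open scoped ENNReal NNReal

lemma pois_zero (ν : ℝ≥0) :
    (poissonMeasure ν).map (Nat.cast : ℕ → ℕ∞) {n | n = 0} = ENNReal.ofReal (exp (-(ν : ℝ))) := by
  rw [Measure.map_apply .of_discrete .of_discrete]
  have : (Nat.cast : ℕ → ℕ∞) ⁻¹' {n | n = 0} = {0} := by ext n; simp
  rw [this, poissonMeasure_singleton]
  simp

lemma pois_top (ν : ℝ≥0) :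
    (poissonMeasure ν).map (Nat.cast : ℕ → ℕ∞) {n | n = ⊤} = 0 := by
  rw [Measure.map_apply .of_discrete .of_discrete]
  have : (Nat.cast : ℕ → ℕ∞) ⁻¹' {n | n = ⊤} = ∅ := by ext n; simp
  rw [this, measure_empty]

lemma pois_tail (ν : ℝ≥0) {θ : ℝ} (h0 : 0 ≤ θ) (h1 : θ ≤ 1) (a b : ℕ) :
    (poissonMeasure ν).map (Nat.cast : ℕ → ℕ∞) {n | ¬ ((a : ℕ∞) + n ≤ (b : ℕ∞))} ≤
      ENNReal.ofReal (exp (2 * θ * ν - θ * ((b : ℝ) - a))) := by
  rw [Measure.map_apply .of_discrete .of_discrete]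
  have hs : HasSum (fun n : ℕ => exp (-(ν : ℝ)) * exp (-(θ * ((b : ℝ) - a))) *
      ((ν * exp θ) ^ n / (n.factorial : ℝ)))
      (exp (-(ν : ℝ)) * exp (-(θ * ((b : ℝ) - a))) * exp (ν * exp θ)) := by
    have := (NormedSpace.expSeries_div_hasSum_exp ((ν : ℝ) * exp θ)).mul_left
      (exp (-(ν : ℝ)) * exp (-(θ * ((b : ℝ) - a))))
    simpa only [← exp_eq_exp_ℝ] using this
  calc poissonMeasure ν ((Nat.cast : ℕ → ℕ∞) ⁻¹' {n | ¬ ((a : ℕ∞) + n ≤ (b : ℕ∞))})
      ≤ ∑' n : ℕ, ENNReal.ofReal (exp (-(ν : ℝ)) * exp (-(θ * ((b : ℝ) - a))) *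
        ((ν * exp θ) ^ n / (n.factorial : ℝ))) := by
        rw [poissonMeasure, Measure.sum_apply _ .of_discrete]
        apply ENNReal.tsum_le_tsum
        intro n
        rw [Measure.smul_apply, Measure.dirac_apply' _ .of_discrete, smul_eq_mul]
        by_cases hn : n ∈ (Nat.cast : ℕ → ℕ∞) ⁻¹' {n | ¬ ((a : ℕ∞) + n ≤ (b : ℕ∞))}
        · rw [indicator_of_mem hn, Pi.one_apply, mul_one]
          apply ENNReal.ofReal_le_ofReal
          have h2 : ¬ (a + n ≤ b) := by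
            intro h
            apply hn
            exact_mod_cast h
          have h3 : (b : ℝ) - a ≤ n := by
            have : b ≤ a + n := by omega
            have : (b : ℝ) ≤ a + n := by exact_mod_cast this
            linarith
          have h4 : 1 ≤ exp (-(θ * ((b : ℝ) - a))) * exp θ ^ n := by
            rw [← Real.exp_nat_mul, ← exp_add]
            apply Real.one_le_exp
            nlinarith
          calc exp (-(ν : ℝ)) * ν ^ n / (n.factorial : ℝ)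
              = exp (-(ν : ℝ)) * ν ^ n / (n.factorial : ℝ) * 1 := by ring
            _ ≤ exp (-(ν : ℝ)) * ν ^ n / (n.factorial : ℝ) *
                (exp (-(θ * ((b : ℝ) - a))) * exp θ ^ n) :=
              mul_le_mul_of_nonneg_left h4 (by positivity)
            _ = _ := by rw [mul_pow]; ring
        · rw [indicator_of_notMem hn, mul_zero]
          exact zero_le
    _ = ENNReal.ofReal (exp (-(ν : ℝ)) * exp (-(θ * ((b : ℝ) - a))) * exp (ν * exp θ)) := by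
        rw [← ENNReal.ofReal_tsum_of_nonneg (fun n => by positivity) hs.summable, hs.tsum_eq]
    _ ≤ _ := by
        apply ENNReal.ofReal_le_ofReal
        rw [← exp_add, ← exp_add]
        apply exp_le_exp.2
        have h2 := Real.abs_exp_sub_one_le (x := θ) (by rw [abs_of_nonneg h0]; exact h1)
        rw [abs_of_nonneg h0] at h2
        have h3 := (le_abs_self _).trans h2
        have h4 : (0 : ℝ) ≤ ν := ν.2
        nlinarith

lemma tsum_prod_fin (f : ℕ → ℝ≥0∞) (n : ℕ) :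
    ∑' k : Fin n → ℕ, ∏ i, f (k i) = (∑' j, f j) ^ n := by
  induction n with
  | zero => simp
  | succ n ih =>
    rw [← (Fin.consEquiv fun _ : Fin (n + 1) => ℕ).tsum_eq, ENNReal.tsum_prod']
    simp only [Fin.consEquiv_apply, Fin.prod_univ_succ, Fin.cons_zero, Fin.cons_succ]
    simp_rw [ENNReal.tsum_mul_left, ih, ENNReal.tsum_mul_right]
    ring

lemma tsum_prod_fintype {ι : Type} [Fintype ι] (f : ℕ → ℝ≥0∞) :
    ∑' k : ι → ℕ, ∏ i, f (k i) = (∑' j, f j) ^ Fintype.card ι := by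
  rw [← tsum_prod_fin, ← (Equiv.arrowCongr (Fintype.equivFin ι) (Equiv.refl ℕ)).tsum_eq]
  congr 1
  ext k
  exact Fintype.prod_equiv (Fintype.equivFin ι) _ _ (by intro i; simp)

lemma eventually_small {c q ε : ℝ≥0∞} (hc : c ≠ ⊤) (hq : q < 1) (hε : 0 < ε) :
    ∀ᶠ A : ℕ in atTop, c * q ^ A ≤ ε := by
  have h := ENNReal.Tendsto.const_mul (a := c) (ENNReal.tendsto_pow_atTop_nhds_zero_of_lt_one hq)
    (Or.inr hc)
  rw [mul_zero] at h
  exact h.eventually (ge_mem_nhds hε)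

lemma ofReal_exp_neg_lt_one {x : ℝ} (hx : 0 < x) : ENNReal.ofReal (exp (-x)) < 1 := by
  rw [ENNReal.ofReal_lt_one]
  exact exp_lt_one_iff.2 (by linarith)

/-- A union of vertical pieces over the strips `-n, ..., n`. -/
def Col (I : ℤ → Set ℝ) (n : ℕ) : Set (ℝ × ℝ) := {p | |⌊p.1⌋| ≤ n ∧ p.2 ∈ I ⌊p.1⌋}

lemma Col_eq (I : ℤ → Set ℝ) (n : ℕ) :
    Col I n = ⋃ m ∈ Finset.Icc (-(n : ℤ)) n, Ico (m : ℝ) (m + 1) ×ˢ I m := by
  ext p
  simp only [Col, mem_ofPred_eq, mem_iUnion, mem_prod, exists_prop, Finset.mem_Icc, mem_Ico]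
  constructor
  · rintro ⟨h1, h2⟩
    exact ⟨⌊p.1⌋, abs_le.1 h1, ⟨Int.floor_le _, Int.lt_floor_add_one _⟩, h2⟩
  · rintro ⟨m, h1, h2, h3⟩
    have : ⌊p.1⌋ = m := Int.floor_eq_iff.2 h2
    rw [this]
    exact ⟨abs_le.2 h1, h3⟩

lemma measurableSet_Col {I : ℤ → Set ℝ} (hI : ∀ m, MeasurableSet (I m)) (n : ℕ) :
    MeasurableSet (Col I n) := by
  rw [Col_eq]
  exact Finset.measurableSet_biUnion _ fun m _ => measurableSet_Ico.prod (hI m)

lemma volume_Col {I : ℤ → Set ℝ} (hI : ∀ m, MeasurableSet (I m)) (n : ℕ) :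
    volume (Col I n) = ∑ m ∈ Finset.Icc (-(n : ℤ)) n, volume (I m) := by
  rw [Col_eq, measure_biUnion_finset]
  · apply Finset.sum_congr rfl
    intro m _
    rw [Measure.volume_eq_prod, Measure.prod_prod]
    simp
  · intro m _ m' _ hne
    rw [Function.onFun, Set.disjoint_left]
    rintro p ⟨h1, -⟩ ⟨h2, -⟩
    exact hne ((Int.floor_eq_iff.2 h1).symm.trans (Int.floor_eq_iff.2 h2))
  · exact fun m _ => measurableSet_Ico.prod (hI m)

variable {Ω : Type} [MeasurableSpace Ω]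

/-- Counts with Poisson laws, in the coordinates `(t, s)`. -/
def Pois (P : Measure Ω) (N : Set (ℝ × ℝ) → Ω → ℕ∞) (lam : ℝ≥0) : Prop :=
  ∀ A : Set (ℝ × ℝ), MeasurableSet A → volume A ≠ ⊤ →
    HasLaw (N A) ((poissonMeasure (lam * (volume A).toNNReal)).map (Nat.cast : ℕ → ℕ∞)) P

variable {P : Measure Ω} {N : Set (ℝ × ℝ) → Ω → ℕ∞} {lam : ℝ≥0}

lemma Pois.zero (h : Pois P N lam) {A : Set (ℝ × ℝ)} (hA : MeasurableSet A) {a : ℝ} (ha : 0 ≤ a)
    (hv : volume A = ENNReal.ofReal a) :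
    P {ω | N A ω = 0} = ENNReal.ofReal (exp (-(lam * a))) := by
  have := (h A hA (by rw [hv]; exact ENNReal.ofReal_ne_top)).measure_eq
    (p := fun n => n = 0) .of_discrete
  rw [this, pois_zero, hv]
  simp [ENNReal.ofReal, Real.coe_toNNReal _ ha]

lemma Pois.top (h : Pois P N lam) {A : Set (ℝ × ℝ)} (hA : MeasurableSet A)
    (hv : volume A ≠ ⊤) : P {ω | N A ω = ⊤} = 0 := by
  have := (h A hA hv).measure_eq (p := fun n => n = ⊤) .of_discrete
  rw [this, pois_top]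

lemma Pois.tail (h : Pois P N lam) {A : Set (ℝ × ℝ)} (hA : MeasurableSet A) {v : ℝ} (hv0 : 0 ≤ v)
    (hv : volume A = ENNReal.ofReal v) {θ : ℝ} (h0 : 0 ≤ θ) (h1 : θ ≤ 1) (a b : ℕ) :
    P {ω | ¬ ((a : ℕ∞) + N A ω ≤ (b : ℕ∞))} ≤
      ENNReal.ofReal (exp (2 * θ * (lam * v) - θ * ((b : ℝ) - a))) := by
  have := (h A hA (by rw [hv]; exact ENNReal.ofReal_ne_top)).measure_eq
    (p := fun n => ¬ ((a : ℕ∞) + n ≤ (b : ℕ∞))) .of_discrete
  rw [this]
  refine (pois_tail _ h0 h1 a b).trans (le_of_eq ?_)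
  rw [hv]
  simp [ENNReal.ofReal, Real.coe_toNNReal _ hv0]

end Pool.Agent.H707Z.PV
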