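import Pool.Agent.H707Z.PVProb1
import Pool.Agent.H707Z.PVDet2

set_option autoImplicit false

namespace Pool.Agent.H707Z.PV

open Real Set MeasureTheory ProbabilityTheory Filter Topology
open scoped ENNReal NNReal

/-- The part of the strips `-n, ..., n` strictly below the heights `k`. -/
def Aset (k : ℤ → ℕ) (n : ℕ) : Set (ℝ × ℝ) := Col (fun m => Ioo (-(k m : ℝ)) (k m)) n

lemma Bset_eq (r : ℤ → ℕ) (n : ℕ) :
    Bset r n = Col (fun m => Icc (-(96 * ((r m : ℝ) + 1))) (96 * ((r m : ℝ) + 1))) n := by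
  ext p
  simp only [Bset, Col, mem_ofPred_eq, mem_Icc, abs_le]

lemma volume_Aset (k : ℤ → ℕ) (n : ℕ) : volume (Aset k n) =
    ENNReal.ofReal (∑ m ∈ Finset.Icc (-(n : ℤ)) n, 2 * (k m : ℝ)) := by
  rw [Aset, volume_Col (fun _ => measurableSet_Ioo),
    ENNReal.ofReal_sum_of_nonneg (fun _ _ => by positivity)]
  apply Finset.sum_congr rfl
  intro m _
  rw [Real.volume_Ioo]
  congr 1; ring

lemma volume_Bset (k : ℤ → ℕ) (n : ℕ) : volume (Bset k n) =
    ENNReal.ofReal (∑ m ∈ Finset.Icc (-(n : ℤ)) n, 192 * ((k m : ℝ) + 1)) := by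
  rw [Bset_eq, volume_Col (fun _ => measurableSet_Icc),
    ENNReal.ofReal_sum_of_nonneg (fun _ _ => by positivity)]
  apply Finset.sum_congr rfl
  intro m _
  rw [Real.volume_Icc]
  congr 1; ring

/-- Extension by zero. -/
noncomputable def extz (n : ℕ) (k : Finset.Icc (-(n : ℤ)) n → ℕ) : ℤ → ℕ :=
  fun m => if h : m ∈ Finset.Icc (-(n : ℤ)) n then k ⟨m, h⟩ else 0

variable {Ω : Type} [MeasurableSpace Ω]

def Ev (N : Set (ℝ × ℝ) → Ω → ℕ∞) (K A n : ℕ) (k : ℤ → ℕ) : Set Ω :=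
  {ω | N (Aset k n) ω = 0 ∧ ¬ (((∑ m ∈ Finset.Icc (-(n : ℤ)) n, k m : ℕ) : ℕ∞) +
    N (Bset k n) ω ≤ ((K * (n + A) : ℕ) : ℕ∞))}

variable {P : Measure Ω} {N : Set (ℝ × ℝ) → Ω → ℕ∞} {lam : ℝ≥0}

lemma le_mean {x : ℝ≥0∞} {u v : ℝ} (h1 : x ≤ ENNReal.ofReal (exp u))
    (h2 : x ≤ ENNReal.ofReal (exp v)) : x ≤ ENNReal.ofReal (exp ((u + v) / 2)) := by
  rcases le_total u v with h | h
  · exact h1.trans (ENNReal.ofReal_le_ofReal (exp_le_exp.2 (by linarith)))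
  · exact h2.trans (ENNReal.ofReal_le_ofReal (exp_le_exp.2 (by linarith)))

lemma Pois.ev (h : Pois P N lam) {θ : ℝ} (h0 : 0 ≤ θ) (h1 : θ ≤ 1)
    (hθ : θ * (384 * lam + 1) = lam) (K A n : ℕ) (k : ℤ → ℕ) :
    P (Ev N K A n k) ≤ (ENNReal.ofReal (exp (-(θ / 2))) ^ K) ^ (n + A) *
      ∏ m ∈ Finset.Icc (-(n : ℤ)) n, (ENNReal.ofReal (exp (192 * θ * lam)) *
        ENNReal.ofReal (exp (-((lam : ℝ) / 2))) ^ (k m)) := by
  have b1 : P (Ev N K A n k) ≤ _ := (measure_mono fun ω hω => hω.1).trans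
    (h.zero (measurableSet_Col (fun _ => measurableSet_Ioo) n)
      (Finset.sum_nonneg fun _ _ => by positivity) (volume_Aset k n)).le
  have b2 : P (Ev N K A n k) ≤ _ := (measure_mono fun ω hω => hω.2).trans
    (h.tail (by rw [Bset_eq]; exact measurableSet_Col (fun _ => measurableSet_Icc) n)
      (Finset.sum_nonneg fun _ _ => by positivity) (volume_Bset k n) h0 h1 _ _)
  refine (le_mean b1 b2).trans (le_of_eq ?_)
  simp_rw [← ENNReal.ofReal_pow (exp_pos _).le, ← Real.exp_nat_mul,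
    ← ENNReal.ofReal_pow (exp_pos _).le, ← Real.exp_nat_mul,
    ← ENNReal.ofReal_mul (exp_pos _).le, ← exp_add]
  rw [← ENNReal.ofReal_prod_of_nonneg (fun _ _ => (exp_pos _).le), ← Real.exp_sum,
    ← ENNReal.ofReal_mul (exp_pos _).le, ← exp_add]
  congr 2
  have hc : ∀ a b : ℝ, ∑ m ∈ Finset.Icc (-(n : ℤ)) n, (a + (k m : ℝ) * b) =
      a * (Finset.Icc (-(n : ℤ)) n).card + (∑ m ∈ Finset.Icc (-(n : ℤ)) n, (k m : ℝ)) * b := by
    intro a b
    rw [Finset.sum_add_distrib, Finset.sum_const, nsmul_eq_mul, Finset.sum_mul]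
    ring
  have e1 : ∑ m ∈ Finset.Icc (-(n : ℤ)) n, 192 * ((k m : ℝ) + 1) =
      ∑ m ∈ Finset.Icc (-(n : ℤ)) n, (192 + (k m : ℝ) * 192) :=
    Finset.sum_congr rfl fun m _ => by ring
  rw [e1, hc, hc, ← Finset.mul_sum]
  push_cast
  linear_combination ((∑ m ∈ Finset.Icc (-(n : ℤ)) n, (k m : ℝ)) / 2) * hθ

lemma Pois.E3 (h : Pois P N lam) (hlam : 0 < lam) : ∃ K : ℕ, ∀ ε : ℝ≥0∞, 0 < ε →
    ∀ᶠ A : ℕ in atTop, P (⋃ (n : ℕ) (k : Finset.Icc (-(n : ℤ)) n → ℕ),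
      Ev N K A n (extz n k)) ≤ ε := by
  have hl : (0 : ℝ) < lam := hlam
  set θ : ℝ := lam / (384 * lam + 1) with hθdef
  have h0 : 0 < θ := by positivity
  have hθ : θ * (384 * lam + 1) = lam := by rw [hθdef]; field_simp
  have h1 : θ ≤ 1 := by
    rw [hθdef, div_le_one (by positivity)]; linarith
  set w0 := ENNReal.ofReal (exp (-(θ / 2))) with hw0
  set ρ := ENNReal.ofReal (exp (-((lam : ℝ) / 2))) with hρ
  set D := ENNReal.ofReal (exp (192 * θ * lam)) with hD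
  have hw : w0 < 1 := ofReal_exp_neg_lt_one (by positivity)
  have hρ1 : ρ < 1 := ofReal_exp_neg_lt_one (by positivity)
  set Fs := ∑' j : ℕ, D * ρ ^ j with hFs
  have hFs' : Fs ≠ ⊤ := by
    rw [hFs, ENNReal.tsum_mul_left, ENNReal.tsum_geometric]
    exact ENNReal.mul_ne_top ENNReal.ofReal_ne_top (ENNReal.inv_ne_top.2 (tsub_pos_of_lt hρ1).ne')
  obtain ⟨K, hK1, hK2⟩ := ((eventually_small (c := Fs ^ 2) (ENNReal.pow_ne_top hFs') hw
    (show (0 : ℝ≥0∞) < 2⁻¹ by simp)).and (eventually_ge_atTop 1)).exists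
  have hwK : w0 ^ K < 1 := pow_lt_one' hw (by omega)
  refine ⟨K, fun ε hε => ?_⟩
  filter_upwards [eventually_small (c := Fs * 2) (ENNReal.mul_ne_top hFs' (by simp)) hwK hε]
    with A hA
  refine le_trans ?_ hA
  calc P (⋃ (n : ℕ) (k : Finset.Icc (-(n : ℤ)) n → ℕ), Ev N K A n (extz n k))
      ≤ ∑' n : ℕ, ∑' k : Finset.Icc (-(n : ℤ)) n → ℕ, P (Ev N K A n (extz n k)) :=
        (measure_iUnion_le _).trans (ENNReal.tsum_le_tsum fun n => measure_iUnion_le _)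
    _ ≤ ∑' n : ℕ, ∑' k : Finset.Icc (-(n : ℤ)) n → ℕ,
          (w0 ^ K) ^ (n + A) * ∏ m, (D * ρ ^ (k m)) := by
        refine ENNReal.tsum_le_tsum fun n => ENNReal.tsum_le_tsum fun k => ?_
        refine (h.ev h0.le h1 hθ K A n _).trans (le_of_eq ?_)
        congr 1
        rw [← Finset.prod_coe_sort]
        apply Finset.prod_congr rfl
        intro m _
        simp only [extz, m.2, dif_pos]
        rfl
    _ = ∑' n : ℕ, (w0 ^ K) ^ A * Fs * (Fs ^ 2 * w0 ^ K) ^ n := by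
        congr 1
        ext n
        rw [ENNReal.tsum_mul_left, tsum_prod_fintype (fun j => D * ρ ^ j), ← hFs]
        have : Fintype.card (Finset.Icc (-(n : ℤ)) n) = 2 * n + 1 := by
          rw [Fintype.card_coe, Int.card_Icc]; omega
        rw [this]
        ring
    _ ≤ ∑' n : ℕ, (w0 ^ K) ^ A * Fs * (2⁻¹) ^ n := by
        refine ENNReal.tsum_le_tsum fun n => ?_
        gcongr
    _ = Fs * 2 * (w0 ^ K) ^ A := by
        rw [ENNReal.tsum_mul_left, ENNReal.tsum_geometric, ENNReal.one_sub_inv_two, inv_inv]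
        ring

lemma Rset_eq (J : ℕ) (m : ℤ) :
    Rset J m = Icc ((m : ℝ) - J) (m + J) ×ˢ Icc (-(J : ℝ)) J := by
  ext p
  simp only [Rset, mem_ofPred_eq, mem_prod, mem_Icc, abs_le]
  constructor
  · rintro ⟨⟨h1, h2⟩, h3⟩
    exact ⟨⟨by linarith, by linarith⟩, h3⟩
  · rintro ⟨⟨h1, h2⟩, h3⟩
    exact ⟨⟨by linarith, by linarith⟩, h3⟩

lemma Pois.box (h : Pois P N lam) (J A : ℕ) (m : ℤ) :
    P {ω | ¬ N (Rset J m) ω ≤ ((m.natAbs + A : ℕ) : ℕ∞)} ≤
      ENNReal.ofReal (exp (2 * (lam * (4 * (J : ℝ) ^ 2)))) * ENNReal.ofReal (exp (-1)) ^ A *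
        ENNReal.ofReal (exp (-1)) ^ m.natAbs := by
  have hv : volume (Rset J m) = ENNReal.ofReal (4 * (J : ℝ) ^ 2) := by
    rw [Rset_eq, Measure.volume_eq_prod, Measure.prod_prod, Real.volume_Icc, Real.volume_Icc,
      ← ENNReal.ofReal_mul (by have : (0 : ℝ) ≤ J := Nat.cast_nonneg _
                               linarith)]
    congr 1; ring
  have := h.tail (by rw [Rset_eq]; exact measurableSet_Icc.prod measurableSet_Icc)
    (by positivity) hv zero_le_one le_rfl 0 (m.natAbs + A)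
  simp only [Nat.cast_zero, zero_add] at this
  refine this.trans (le_of_eq ?_)
  simp_rw [← ENNReal.ofReal_pow (exp_pos _).le, ← Real.exp_nat_mul,
    ← ENNReal.ofReal_mul (exp_pos _).le, ← exp_add, ← ENNReal.ofReal_mul (exp_pos _).le, ← exp_add]
  congr 2
  rw [Nat.cast_add]
  ring

lemma Pois.E4 (h : Pois P N lam) (J : ℕ) {ε : ℝ≥0∞} (hε : 0 < ε) :
    ∀ᶠ A : ℕ in atTop, P (⋃ m : ℤ, {ω | ¬ N (Rset J m) ω ≤ ((m.natAbs + A : ℕ) : ℕ∞)}) ≤ ε := by
  set c := ENNReal.ofReal (exp (2 * (lam * (4 * (J : ℝ) ^ 2)))) with hc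
  set q := ENNReal.ofReal (exp (-1)) with hq
  have hq1 : q < 1 := ofReal_exp_neg_lt_one one_pos
  have hfin : 2 * c * (1 - q)⁻¹ ≠ ⊤ :=
    ENNReal.mul_ne_top (ENNReal.mul_ne_top (by simp) ENNReal.ofReal_ne_top)
      (ENNReal.inv_ne_top.2 (tsub_pos_of_lt hq1).ne')
  filter_upwards [eventually_small hfin hq1 hε] with A hA
  refine le_trans ?_ hA
  let E : ℤ → Set Ω := fun m => {ω | ¬ N (Rset J m) ω ≤ ((m.natAbs + A : ℕ) : ℕ∞)}
  have hsub : (⋃ m : ℤ, E m) ⊆ ⋃ n : ℕ, (E n ∪ E (-n)) := by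
    intro ω hω
    obtain ⟨m, hm⟩ := mem_iUnion.1 hω
    refine mem_iUnion.2 ⟨m.natAbs, ?_⟩
    rcases Int.natAbs_eq m with h | h
    · left; rwa [← h]
    · right; rwa [← h]
  calc P (⋃ m : ℤ, E m) ≤ ∑' n : ℕ, P (E n ∪ E (-n)) :=
        (measure_mono hsub).trans (measure_iUnion_le _)
    _ ≤ ∑' n : ℕ, 2 * (c * q ^ A) * q ^ n := by
        refine ENNReal.tsum_le_tsum fun n => (measure_union_le _ _).trans ?_
        have b1 := h.box J A n
        have b2 := h.box J A (-n)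
        refine (add_le_add b1 b2).trans (le_of_eq ?_)
        rw [Int.natAbs_neg, Int.natAbs_natCast]
        ring
    _ = 2 * c * (1 - q)⁻¹ * q ^ A := by
        rw [ENNReal.tsum_mul_left, ENNReal.tsum_geometric]
        ring

lemma Pois.E5 (h : Pois P N lam) (hlam : 0 < lam) {ε : ℝ≥0∞} (hε : 0 < ε) :
    ∀ᶠ R : ℕ in atTop, ∀ τ : ℝ,
      P {ω | N (Icc (τ - 1) (τ + 1) ×ˢ Icc (-(R : ℝ)) R) ω = 0} ≤ ε := by
  have hl : (0 : ℝ) < lam := hlam
  filter_upwards [eventually_small (c := 1) (by simp)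
    (ofReal_exp_neg_lt_one (show (0 : ℝ) < 4 * lam by positivity)) hε] with R hR τ
  refine le_trans (le_of_eq ?_) hR
  have hv : volume (Icc (τ - 1) (τ + 1) ×ˢ Icc (-(R : ℝ)) R) = ENNReal.ofReal (4 * (R : ℝ)) := by
    rw [Measure.volume_eq_prod, Measure.prod_prod, Real.volume_Icc, Real.volume_Icc,
      ← ENNReal.ofReal_mul (by linarith)]
    congr 1; ring
  rw [h.zero (measurableSet_Icc.prod measurableSet_Icc) (by positivity) hv, one_mul,
    ← ENNReal.ofReal_pow (exp_pos _).le, ← Real.exp_nat_mul]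
  congr 2; ring

lemma Pois.E2 (h : Pois P N lam) (hlam : 0 < lam) :
    P (⋃ m : ℤ, ⋂ k : ℕ,
      {ω | N (Ico (m : ℝ) (m + 1) ×ˢ Ioo (-((k : ℝ) + 1)) (k + 1)) ω = 0}) = 0 := by
  have hl : (0 : ℝ) < lam := hlam
  refine measure_iUnion_null fun m => ?_
  apply le_antisymm _ zero_le
  apply le_of_forall_pos_le_add
  intro ε hε
  obtain ⟨k, hk⟩ := (eventually_small (c := ENNReal.ofReal (exp (-(2 * lam))))
    ENNReal.ofReal_ne_top
    (ofReal_exp_neg_lt_one (show (0 : ℝ) < 2 * lam by positivity)) hε).exists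
  rw [zero_add]
  refine (measure_mono (iInter_subset _ k)).trans (le_trans (le_of_eq ?_) hk)
  have hv : volume (Ico (m : ℝ) (m + 1) ×ˢ Ioo (-((k : ℝ) + 1)) (k + 1)) =
      ENNReal.ofReal (2 * ((k : ℝ) + 1)) := by
    rw [Measure.volume_eq_prod, Measure.prod_prod, Real.volume_Ico, Real.volume_Ioo,
      ← ENNReal.ofReal_mul (by linarith)]
    congr 1; ring
  rw [h.zero (measurableSet_Ico.prod measurableSet_Ioo) (by positivity) hv,
    ← ENNReal.ofReal_pow (exp_pos _).le, ← Real.exp_nat_mul, ← ENNReal.ofReal_mul (exp_pos _).le,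
    ← exp_add]
  congr 2; ring

lemma Pois.E1 (h : Pois P N lam) :
    P (⋃ n : ℕ, {ω | N (Icc (-(n : ℝ)) n ×ˢ Icc (-(n : ℝ)) n) ω = ⊤}) = 0 := by
  refine measure_iUnion_null fun n => h.top (measurableSet_Icc.prod measurableSet_Icc) ?_
  rw [Measure.volume_eq_prod, Measure.prod_prod, Real.volume_Icc]
  exact ENNReal.mul_ne_top ENNReal.ofReal_ne_top ENNReal.ofReal_ne_top

end Pool.Agent.H707Z.PV
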