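import Pool.Agent.H707Z.T3A

set_option autoImplicit false

namespace Pool.Agent.H707Z.T3

open Pool.Agent.H143Z.Vir Pool.Agent.H143Z.Acc

section ops
variable {M : Type} [AddCommGroup M] [Module ℂ M]

/-- operators preserving a subspace -/
def pres (I : Submodule ℂ M) : Subalgebra ℂ (En M) where
  carrier := {f | ∀ v ∈ I, f v ∈ I}
  mul_mem' := fun {_ _} ha hb v hv => ha _ (hb v hv)
  add_mem' := fun {_ _} ha hb v hv => I.add_mem (ha v hv) (hb v hv)
  algebraMap_mem' := fun c v hv => by simpa using I.smul_mem c hv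

lemma mem_pres {I : Submodule ℂ M} {f : En M} : f ∈ pres I ↔ ∀ v ∈ I, f v ∈ I := Iff.rfl

variable (ξ : R →ₐ[ℂ] Module.End ℂ M) (F : Finset ℕ) (θ : ℕ → En M) (μ : ℕ → ℂ)

/-- the iterated operators -/
noncomputable def Ps : ℕ → (R →ₗ[ℂ] En M)
  | 0 => ξ.toLinearMap
  | r + 1 => ∑ i ∈ F, (LinearMap.mulRight ℂ (θ i) ∘ₗ Ps r ∘ₗ (sub r i).toLinearMap
      + Ps r ∘ₗ (sub r i).toLinearMap ∘ₗ (thx i + μ i • Dt r))

lemma Ps_zero (a : R) : Ps ξ F θ μ 0 a = ξ a := rfl

lemma Ps_succ (r : ℕ) (a : R) : Ps ξ F θ μ (r + 1) a = ∑ i ∈ F,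
    (Ps ξ F θ μ r (sub r i a) * θ i + (Ps ξ F θ μ r (sub r i (thx i a))
      + μ i • Ps ξ F θ μ r (sub r i (Dt r a)))) := by
  rw [Ps, LinearMap.sum_apply]
  refine Finset.sum_congr rfl fun i _ => ?_
  simp only [LinearMap.add_apply, LinearMap.comp_apply, LinearMap.mulRight_apply,
    AlgHom.toLinearMap_apply, LinearMap.smul_apply, map_add, map_smul]

/-- ordered product of first order operators -/
noncomputable def RP (G : ℕ → R) : ℕ → En M
  | 0 => 1
  | r + 1 => RP G r * rh ξ F θ μ (G r)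

variable {ξ F θ μ}

lemma Ps_AP {B : Finset ℕ} (hBF : Disjoint B F)
    (hθ : ∀ i ∈ F, ∀ r, θ i * ξ r = ξ r * θ i + ξ (thx i r))
    (G : ℕ → R) (hG : ∀ a, PV B (Sum.inl 0) (G a) = G a) (r : ℕ) :
    ∀ c, NT r c → Ps ξ F θ μ r (AP B G r * c) = RP ξ F θ μ G r * ξ c := by
  induction r with
  | zero => intro c _; simp [AP, RP, Ps_zero]
  | succ r ih =>
    intro c hc
    have hc1 := (hc r (Nat.lt_succ_self r)).1
    have hc2 := (hc r (Nat.lt_succ_self r)).2
    rw [Ps_succ, RP, rh, mul_assoc, Finset.sum_mul, Finset.mul_sum]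
    refine Finset.sum_congr rfl fun i hi => ?_
    have hiB : i ∉ B := fun h => Finset.disjoint_left.1 hBF h hi
    have e1 : sub r i (AP B G (r + 1) * c) = AP B G r * (PV B (Sum.inr i) (G r) * c) := by
      rw [AP_succ, map_mul, map_mul, sub_AP, sub_PV, sg_self, hc2, mul_assoc]
    have e2 : sub r i (thx i (AP B G (r + 1) * c))
        = AP B G r * (PV B (Sum.inr i) (G r) * thx i c) := by
      rw [der_mul_ker (thx_AP G (r + 1) hiB), AP_succ, map_mul, map_mul, sub_AP, sub_PV, sg_self,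
        ((hc.thx i) r (Nat.lt_succ_self r)).2, mul_assoc]
    have e3 : sub r i (Dt r (AP B G (r + 1) * c))
        = AP B G r * (PV B (Sum.inr i) (tht (G r)) * c) := by
      rw [AP_succ, mul_assoc, der_mul_ker (Dt_AP B G r), der_mul, hc1, mul_zero, add_zero,
        Dt_PV_self, map_mul, map_mul, sub_AP, sub_PV, sg_self, hc2]
    rw [e1, e2, e3, ih _ ((NT_PV B r i _).mul hc.mono), ih _ ((NT_PV B r i _).mul (hc.thx i).mono),
      ih _ ((NT_PV B r i _).mul hc.mono), sub0_eq (hG r), sub0_tht (hG r), map_mul, map_mul, map_mul,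
      add_mul, mul_assoc (ξ _) (θ i), hθ i hi]
    simp only [mul_add, mul_assoc, smul_mul_assoc, mul_smul_comm, add_assoc]

lemma comm_rh {s : En M} (h1 : ∀ r, s * ξ r = ξ r * s) (h2 : ∀ i ∈ F, s * θ i = θ i * s) (G : R) :
    Commute s (rh ξ F θ μ G) := by
  refine Commute.sum_right _ _ _ fun i hi => ?_
  exact ((show Commute s (ξ _) from h1 _).mul_right (h2 i hi)).add_right
    ((show Commute s (ξ _) from h1 _).smul_right _)

lemma RP_pres {s : En M} (h1 : ∀ r, s * ξ r = ξ r * s) (h2 : ∀ i ∈ F, s * θ i = θ i * s)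
    {I : Submodule ℂ M} (G : ℕ → R) (hG : ∀ a, s * rh ξ F θ μ (G a) ∈ pres I) (r : ℕ) :
    Commute s (RP ξ F θ μ G r) ∧ s ^ r * RP ξ F θ μ G r ∈ pres I := by
  induction r with
  | zero => exact ⟨Commute.one_right _, by simpa [RP] using one_mem (pres I)⟩
  | succ r ih =>
    refine ⟨ih.1.mul_right (comm_rh h1 h2 _), ?_⟩
    have : s ^ (r + 1) * RP ξ F θ μ G (r + 1)
        = (s ^ r * RP ξ F θ μ G r) * (s * rh ξ F θ μ (G r)) := by
      rw [RP, pow_succ, mul_assoc, mul_assoc, ← mul_assoc s, ih.1.eq, mul_assoc]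
    rw [this]
    exact mul_mem ih.2 (hG r)

lemma Ps_pres {B : Finset ℕ} (hBF : Disjoint B F) {P : R} (hP : kt B P = P)
    (hθ : ∀ i ∈ F, ∀ r, θ i * ξ r = ξ r * θ i + ξ (thx i r))
    {s : En M} (h1 : ∀ r, s * ξ r = ξ r * s) (h2 : ∀ i ∈ F, s * θ i = θ i * s)
    {I : Submodule ℂ M} (hI : ∀ k : ℤ, s * rh ξ F θ μ (P * tm k) ∈ pres I) (m : ℕ) {w : R}
    (hw : w ∈ TA m) : s ^ m * Ps ξ F θ μ m (AP B (fun _ => P) m * w) ∈ pres I := by
  have hw1 : em (gT m) w = w := hw
  rw [← hw1]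
  clear hw1 hw
  have hP' : PV B (Sum.inl 0) P = P := by rw [← kt_eq, hP]
  induction w using ind with
  | h0 => simpa using zero_mem (pres I)
  | hadd x y hx hy => simp only [map_add, mul_add]; exact add_mem hx hy
  | hs c x hx => simp only [map_smul, mul_smul_comm]; exact Subalgebra.smul_mem _ hx c
  | h1 e =>
    have e1 : AP B (fun _ => P) m * em (gT m) (mo e)
        = AP B (fun a => P * tm (e (Sum.inl a))) m * 1 := by
      rw [em_mo, gT_apply, mo_sum, AP, AP, mul_one, ← Finset.prod_mul_distrib]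
      refine Finset.prod_congr rfl fun a _ => ?_
      rw [map_mul, PV_tm]
    rw [e1, Ps_AP hBF hθ _ (fun a => by rw [map_mul, hP', PV_tm, tm]) m 1 (NT_one m), map_one,
      mul_one]
    exact (RP_pres h1 h2 _ (fun a => hI _) m).2

variable {Kc : Type} [CommRing Kc] [Algebra ℂ Kc]

/-- the top order operators -/
noncomputable def DD (ξ : R →ₐ[ℂ] Module.End ℂ M) (μ : ℕ → ℂ) (Θ : Kc →ₐ[ℂ] En M) (Y : ℕ → Kc)
    (S : Finset ℕ) : R →ₗ[ℂ] En M :=
  lin fun e => ξ (mo e) * Θ (∏ i ∈ S, (Y i + algebraMap ℂ Kc (μ i * (e (Sum.inr i) : ℂ))))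

variable {Θ : Kc →ₐ[ℂ] En M} {Y : ℕ → Kc}

lemma DD_mo (S : Finset ℕ) (e : Ex) : DD ξ μ Θ Y S (mo e)
    = ξ (mo e) * Θ (∏ i ∈ S, (Y i + algebraMap ℂ Kc (μ i * (e (Sum.inr i) : ℂ)))) := lin_mo _ _

lemma DD_empty (a : R) : DD ξ μ Θ Y ∅ a = ξ a := by
  induction a using ind with
  | h0 => simp
  | hadd x y hx hy => simp only [map_add, hx, hy]
  | hs c x hx => simp only [map_smul, hx]
  | h1 e => rw [DD_mo]; simp

lemma DD_insert {S : Finset ℕ} {i : ℕ} (hi : i ∉ S) (a : R) :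
    DD ξ μ Θ Y S a * Θ (Y i) + μ i • DD ξ μ Θ Y S (thx i a) = DD ξ μ Θ Y (insert i S) a := by
  induction a using ind with
  | h0 => simp
  | hadd x y hx hy => simp only [map_add, add_mul, smul_add, ← hx, ← hy]; abel
  | hs c x hx => simp only [map_smul, smul_mul_assoc, ← hx, smul_add, smul_comm c (μ i)]
  | h1 e =>
    rw [der_mo, map_smul, DD_mo, DD_mo, Finset.prod_insert hi, mul_comm (Y i + _), mul_add,
      map_add, map_mul, map_mul, AlgHom.commutes, mul_add, ← Algebra.commutes, ← Algebra.smul_def,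
      smul_smul, pr_apply, mul_assoc, mul_smul_comm]

lemma Ps_DD (hY : ∀ i ∈ F, θ i = Θ (Y i)) (r : ℕ) : ∀ (T : Finset ℕ) (a : R), T ⊆ F →
    r + T.card = F.card → Good r T a → (∀ j ∈ F \ T, thx j a = 0) →
    Ps ξ F θ μ r a = DD ξ μ Θ Y (F \ T) (SyT F r T a) := by
  induction r with
  | zero =>
    intro T a hT hc _ _
    have : T = F := Finset.eq_of_subset_of_card_le hT (by omega)
    subst this
    rw [Finset.sdiff_self, DD_empty]; rfl
  | succ r ih =>
    intro T a hT hc hG hx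
    rw [Ps_succ, SyT_succ, map_sum, ← Finset.sum_sdiff hT, Finset.sum_eq_zero (s := T), add_zero]
    · refine Finset.sum_congr rfl fun i hi => ?_
      obtain ⟨hiF, hiT⟩ := Finset.mem_sdiff.1 hi
      have h0 : thx i a = 0 := hx i hi
      have hT' : insert i T ⊆ F := Finset.insert_subset hiF hT
      have hc' : r + (insert i T).card = F.card := by
        rw [Finset.card_insert_of_notMem hiT]; omega
      have e1 : sub r i (Dt r a) = thx i (sub r i a) := by
        rw [thx_sub_self, h0, map_zero, zero_add]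
      have e2 : E r i a = thx i (sub r i a) := by
        rw [E_apply, der_dl_eq, h0, sub_zero, e1]
      have hx' : ∀ j ∈ F \ insert i T, thx j (sub r i a) = 0 := by
        intro j hj
        obtain ⟨hjF, hjT⟩ := Finset.mem_sdiff.1 hj
        have hne : j ≠ i := fun h => hjT (h ▸ Finset.mem_insert_self _ _)
        rw [thx_sub_ne hne, hx j (Finset.mem_sdiff.2 ⟨hjF, fun h => hjT (Finset.mem_insert_of_mem h)⟩),
          map_zero]
      have hx'' : ∀ j ∈ F \ insert i T, thx j (thx i (sub r i a)) = 0 := by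
        intro j hj
        rw [der_comm, hx' j hj, map_zero]
      have hins : insert i (F \ insert i T) = F \ T := by
        ext j
        simp only [Finset.mem_insert, Finset.mem_sdiff]
        constructor
        · rintro (rfl | ⟨h1, h2⟩)
          · exact ⟨hiF, hiT⟩
          · exact ⟨h1, fun h => h2 (Or.inr h)⟩
        · rintro ⟨h1, h2⟩
          by_cases hj : j = i
          · exact Or.inl hj
          · exact Or.inr ⟨h1, fun h => h.elim hj h2⟩
      rw [h0, map_zero, map_zero, zero_add, e1, ih _ _ hT' hc' (Good_sub hG) hx',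
        ih _ _ hT' hc' (e2 ▸ Good_E hG hiT) hx'', ← thx_SyT F i r _ _ (Finset.mem_insert_self _ _),
        hY i hiF, DD_insert (by simp), hins]
    · intro i hi
      have hd := hG.2 r (Nat.lt_succ_self r) i hi
      have hz : ∀ b : R, t r - x i ∣ b → sub r i b = 0 := by
        intro b hb
        have h2 := map_dvd (sub r i) hb
        rwa [map_sub, sub_t_self, sub_x, sub_self, zero_dvd_iff] at h2
      have hd1 : ∀ l : Ex →+ ℤ, t r - x i ∣ der l a := fun l => by
        simpa using der_dvd_pow l (m := 1) hd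
      rw [hz a ((dvd_pow_self _ (by norm_num)).trans hd), hz _ (hd1 _), hz _ (hd1 _)]
      simp

lemma shift (hY : ∀ i ∈ F, θ i = Θ (Y i))
    (hθ : ∀ i ∈ F, ∀ r, θ i * ξ r = ξ r * θ i + ξ (thx i r)) (c : ℕ → ℂ) (e : Ex)
    (S : Finset ℕ) (hS : S ⊆ F) :
    Θ (∏ i ∈ S, (Y i + algebraMap ℂ Kc (c i))) * ξ (mo e)
      = ξ (mo e) * Θ (∏ i ∈ S, (Y i + algebraMap ℂ Kc (c i + (e (Sum.inr i) : ℂ)))) := by
  induction S using Finset.induction_on with
  | empty => simp
  | insert i S hi ih =>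
    have hiF : i ∈ F := hS (Finset.mem_insert_self _ _)
    have e1 : Θ (Y i + algebraMap ℂ Kc (c i)) * ξ (mo e)
        = ξ (mo e) * Θ (Y i + algebraMap ℂ Kc (c i + (e (Sum.inr i) : ℂ))) := by
      rw [map_add, map_add, AlgHom.commutes, AlgHom.commutes, ← hY i hiF, add_mul, hθ i hiF, der_mo,
        map_smul, mul_add, ← Algebra.commutes, ← Algebra.smul_def, ← Algebra.smul_def, add_smul,
        pr_apply]
      abel
    rw [Finset.prod_insert hi, Finset.prod_insert hi, map_mul, map_mul, mul_assoc,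
      ih ((Finset.subset_insert _ _).trans hS), ← mul_assoc, e1, mul_assoc]

lemma comm_DD (hY : ∀ i ∈ F, θ i = Θ (Y i)) {s : En M} (h1 : ∀ r, s * ξ r = ξ r * s)
    (h2 : ∀ i ∈ F, s * θ i = θ i * s) (a : R) : Commute s (DD ξ μ Θ Y F a) := by
  have key : ∀ (c : ℕ → ℂ) (S : Finset ℕ), S ⊆ F →
      Commute s (Θ (∏ i ∈ S, (Y i + algebraMap ℂ Kc (c i)))) := by
    intro c S hS
    induction S using Finset.induction_on with
    | empty => simp
    | insert i S hi ih =>
      have hiF : i ∈ F := hS (Finset.mem_insert_self _ _)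
      rw [Finset.prod_insert hi, map_mul]
      refine Commute.mul_right ?_ (ih ((Finset.subset_insert _ _).trans hS))
      rw [map_add, AlgHom.commutes, ← hY i hiF]
      exact (show Commute s (θ i) from h2 i hiF).add_right (Algebra.commute_algebraMap_right _ _)
  induction a using ind with
  | h0 => simp
  | hadd x y hx hy => rw [map_add]; exact hx.add_right hy
  | hs c x hx => rw [map_smul]; exact hx.smul_right c
  | h1 e =>
    rw [DD_mo]
    exact (show Commute s (ξ _) from h1 _).mul_right (key _ F (Finset.Subset.refl _))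

lemma DD_pres {B : Finset ℕ} (hBF : Disjoint B F) {P : R} (hP : kt B P = P) {N : ℕ} (hN : 2 ≤ N)
    (hY : ∀ i ∈ F, θ i = Θ (Y i))
    (hθ : ∀ i ∈ F, ∀ r, θ i * ξ r = ξ r * θ i + ξ (thx i r))
    {s : En M} (h1 : ∀ r, s * ξ r = ξ r * s) (h2 : ∀ i ∈ F, s * θ i = θ i * s)
    {I : Submodule ℂ M} (hI : ∀ k : ℤ, s * rh ξ F θ μ (P * tm k) ∈ pres I) {h : R}
    (hh : h ∈ Algebra.adjoin ℂ (Set.range (pS F))) (k : ℤ) :
    s ^ F.card * DD ξ μ Θ Y F (ZF F N P * h * mo (piE F k)) ∈ pres I := by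
  obtain ⟨w, hw, hG, hS⟩ := exists_test hP hN hh k
  have h3 := Ps_pres hBF hP hθ h1 h2 hI F.card hw
  rw [Ps_DD hY F.card ∅ _ (Finset.empty_subset _) (by simp) (hG.mul _), hS, map_smul,
    Finset.sdiff_empty, mul_smul_comm] at h3
  · have h4 := Subalgebra.smul_mem _ h3 ((F.card).factorial : ℂ)⁻¹
    rwa [smul_smul, inv_mul_cancel₀ (Nat.cast_ne_zero.2 (Nat.factorial_ne_zero _)), one_smul] at h4
  · intro j hj
    have hjB : j ∉ B := fun h => Finset.disjoint_left.1 hBF h (Finset.mem_sdiff.1 hj).1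
    rw [der_mul_ker (thx_AP _ _ hjB), thx_TA hw, mul_zero]

end ops

section poly
variable {Kc : Type} [CommRing Kc]
open Polynomial

lemma prod_top (S : Finset ℕ) (q : ℕ → Kc[X]) (d : ℕ → ℕ) (h : ∀ i ∈ S, (q i).natDegree ≤ d i) :
    (∏ i ∈ S, q i).natDegree ≤ ∑ i ∈ S, d i ∧
      (∏ i ∈ S, q i).coeff (∑ i ∈ S, d i) = ∏ i ∈ S, (q i).coeff (d i) := by
  induction S using Finset.induction_on with
  | empty => simp
  | insert i S hi ih =>
    have ih' := ih fun j hj => h j (Finset.mem_insert_of_mem hj)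
    have hi' := h i (Finset.mem_insert_self _ _)
    rw [Finset.prod_insert hi, Finset.prod_insert hi, Finset.sum_insert hi]
    exact ⟨natDegree_mul_le.trans (add_le_add hi' ih'.1),
      by rw [coeff_mul_add_eq_of_natDegree_le hi' ih'.1, ih'.2]⟩

/-- finite difference weights -/
def lam (d k : ℕ) : ℤ := (-1 : ℤ) ^ (d - k) * d.choose k

lemma sum_lam (q : Kc[X]) (d : ℕ) (h : q.natDegree ≤ d) :
    ∑ k ∈ Finset.range (d + 1), lam d k • q.eval (k : Kc) = (d.factorial : Kc) * q.coeff d := by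
  have h1 := fwdDiff_iter_eq_sum_shift (1 : Kc) q.eval d 0
  simp only [zero_add, nsmul_eq_mul, mul_one] at h1
  unfold lam
  rw [← h1]
  rcases h.eq_or_lt with h2 | h2
  · subst h2
    rw [Polynomial.fwdDiff_iter_degree_eq_factorial]
    simp [mul_comm]
  · rw [Polynomial.fwdDiff_iter_eq_zero_of_degree_lt h2, coeff_eq_zero_of_natDegree_lt h2]
    simp

variable [Algebra ℂ Kc]

/-- the quadratic factors -/
noncomputable def qf (y : Kc) (m a b : ℂ) : Kc[X] :=
  (Polynomial.C (algebraMap ℂ Kc (m - 1)) * Polynomial.X + Polynomial.C (y + algebraMap ℂ Kc (m * a + b))) *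
    (Polynomial.C (algebraMap ℂ Kc (-m)) * Polynomial.X + Polynomial.C (y + algebraMap ℂ Kc (m * b)))

open Classical in
/-- degree of the factor -/
noncomputable def dg (m : ℂ) : ℕ := if m = 0 then 1 else 2

open Classical in
/-- scalar part of the top coefficient -/
noncomputable def cc (m : ℂ) : ℂ := if m = 0 then -1 else (m - 1) * (-m)

open Classical in
lemma qf_top (y : Kc) (m a b : ℂ) : (qf y m a b).natDegree ≤ dg m ∧
    (qf y m a b).coeff (dg m) = cc m • (if m = 0 then y else 1) := by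
  have hl : ∀ u v : Kc, (Polynomial.C u * Polynomial.X + Polynomial.C v).natDegree ≤ 1 := fun u v => natDegree_linear_le
  have hc : ∀ u v : Kc, (Polynomial.C u * Polynomial.X + Polynomial.C v).coeff 1 = u := fun u v => by simp
  unfold qf dg cc
  by_cases hm : m = 0
  · subst hm
    simp only [if_true, neg_zero, map_zero, zero_mul, zero_add, add_zero]
    have h0 : (Polynomial.C y : Kc[X]).natDegree ≤ 0 := (natDegree_C y).le
    refine ⟨natDegree_mul_le.trans (add_le_add (hl _ _) h0), ?_⟩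
    have := coeff_mul_add_eq_of_natDegree_le
      (hl (algebraMap ℂ Kc (0 - 1)) (y + algebraMap ℂ Kc b)) h0
    rw [add_zero] at this
    rw [this, hc, coeff_C_zero, Algebra.smul_def, zero_sub]
  · simp only [if_neg hm]
    refine ⟨natDegree_mul_le.trans (add_le_add (hl _ _) (hl _ _)), ?_⟩
    have := coeff_mul_add_eq_of_natDegree_le
      (hl (algebraMap ℂ Kc (m - 1)) (y + algebraMap ℂ Kc (m * a + b)))
      (hl (algebraMap ℂ Kc (-m)) (y + algebraMap ℂ Kc (m * b)))
    rw [this, hc, hc, Algebra.smul_def, mul_one, map_mul]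

lemma qf_eval (y : Kc) (m a b : ℂ) (k : ℕ) : (qf y m a b).eval (k : Kc)
    = (y + algebraMap ℂ Kc (m * (a + k) + (b - k))) * (y + algebraMap ℂ Kc (m * (b - k))) := by
  simp only [qf, eval_mul, eval_add, eval_C, eval_X]
  simp only [map_add, map_mul, map_sub, map_neg, map_one, map_natCast]
  ring

lemma cc_ne {m : ℂ} (h : m ≠ 1) : cc m ≠ 0 := by
  unfold cc
  split_ifs with hm
  · norm_num
  · exact mul_ne_zero (sub_ne_zero.2 h) (neg_ne_zero.2 hm)

end poly

section fin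
variable {M : Type} [AddCommGroup M] [Module ℂ M]
variable {ξ : R →ₐ[ℂ] Module.End ℂ M} {F : Finset ℕ} {θ : ℕ → En M} {μ : ℕ → ℂ}
variable {Kc : Type} [CommRing Kc] [Algebra ℂ Kc] {Θ : Kc →ₐ[ℂ] En M} {Y : ℕ → Kc}

open Classical in
lemma interp (hY : ∀ i ∈ F, θ i = Θ (Y i))
    (hθ : ∀ i ∈ F, ∀ r, θ i * ξ r = ξ r * θ i + ξ (thx i r)) (g g' : R) :
    ∑ k ∈ Finset.range (∑ i ∈ F, dg (μ i) + 1), lam (∑ i ∈ F, dg (μ i)) k •
      (DD ξ μ Θ Y F (g * mo (piE F (k : ℤ))) * DD ξ μ Θ Y F (g' * mo (piE F (-(k : ℤ)))))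
      = ξ (g * g') * Θ (((∑ i ∈ F, dg (μ i)).factorial : Kc)
        * ∏ i ∈ F, cc (μ i) • (if μ i = 0 then Y i else 1)) := by
  induction g using ind with
  | h0 => simp
  | hadd x y hx hy =>
    simp only [map_add, add_mul, smul_add, Finset.sum_add_distrib, hx, hy]
  | hs c x hx =>
    simp only [map_smul, smul_mul_assoc, ← hx, Finset.smul_sum]
    exact Finset.sum_congr rfl fun k _ => smul_comm _ _ _
  | h1 a =>
    induction g' using ind with
    | h0 => simp
    | hadd x y hx hy =>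
      simp only [map_add, add_mul, mul_add, smul_add, Finset.sum_add_distrib, hx, hy]
    | hs c x hx =>
      simp only [map_smul, smul_mul_assoc, mul_smul_comm, ← hx, Finset.smul_sum]
      exact Finset.sum_congr rfl fun k _ => smul_comm _ _ _
    | h1 b =>
      set q : ℕ → Polynomial Kc := fun i => qf (Y i) (μ i) (a (Sum.inr i)) (b (Sum.inr i)) with hq
      have h1 := prod_top F q (fun i => dg (μ i)) fun i _ => (qf_top _ _ _ _).1
      have h2 := sum_lam _ _ h1.1
      rw [h1.2, Finset.prod_congr rfl fun i _ => (qf_top (Y i) (μ i) _ _).2] at h2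
      rw [← h2, map_sum, Finset.mul_sum]
      refine Finset.sum_congr rfl fun k _ => ?_
      rw [map_zsmul, mul_smul_comm]
      congr 1
      rw [← mo_add, ← mo_add, DD_mo, DD_mo, mul_assoc, ← mul_assoc (Θ _),
        shift hY hθ _ _ F (Finset.Subset.refl _), mul_assoc, ← mul_assoc, ← map_mul, ← map_mul,
        ← mo_add, ← mo_add, Polynomial.eval_prod, ← Finset.prod_mul_distrib]
      congr 2
      · congr 1
        rw [add_add_add_comm, piE_neg, add_zero]
      · refine Finset.prod_congr rfl fun i hi => ?_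
        rw [hq, qf_eval, Pi.add_apply, Pi.add_apply, piE_inr _ hi, piE_inr _ hi]
        push_cast
        simp only [sub_eq_add_neg]

lemma core {B : Finset ℕ} (hBF : Disjoint B F) {P : R} (hP : kt B P = P) {N : ℕ} (hN : 2 ≤ N)
    (hY : ∀ i ∈ F, θ i = Θ (Y i))
    (hθ : ∀ i ∈ F, ∀ r, θ i * ξ r = ξ r * θ i + ξ (thx i r)) (hμ : ∀ i ∈ F, μ i ≠ 1)
    {s : En M} (h1 : ∀ r, s * ξ r = ξ r * s) (h2 : ∀ i ∈ F, s * θ i = θ i * s)
    {I : Submodule ℂ M} (hI : ∀ k : ℤ, s * rh ξ F θ μ (P * tm k) ∈ pres I)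
    {l : List ℕ} (hl : l.Nodup) (hl' : ∀ i, i ∈ l ↔ i ∈ F ∧ μ i = 0) {h : R}
    (hh : h ∈ Algebra.adjoin ℂ (Set.range (pS F))) :
    s ^ (2 * F.card) * (ξ (ZF F N P * ZF F N P * h) * (l.map θ).prod) ∈ pres I := by
  classical
  have key := interp (ξ := ξ) (μ := μ) hY hθ (ZF F N P * h) (ZF F N P * 1)
  set d := ∑ i ∈ F, dg (μ i) with hd
  have hmem : s ^ (2 * F.card) * ∑ k ∈ Finset.range (d + 1), lam d k •
      (DD ξ μ Θ Y F (ZF F N P * h * mo (piE F (k : ℤ)))
        * DD ξ μ Θ Y F (ZF F N P * 1 * mo (piE F (-(k : ℤ))))) ∈ pres I := by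
    rw [Finset.mul_sum]
    refine sum_mem fun k _ => ?_
    rw [mul_smul_comm]
    refine zsmul_mem ?_ _
    have a1 := DD_pres hBF hP hN hY hθ h1 h2 hI hh (k : ℤ)
    have a2 := DD_pres hBF hP hN hY hθ h1 h2 hI (one_mem _) (-(k : ℤ))
    have a3 := mul_mem a1 a2
    have a4 := (comm_DD (ξ := ξ) (μ := μ) hY h1 h2 (ZF F N P * h * mo (piE F (k : ℤ)))).pow_left F.card
    rwa [mul_assoc, ← mul_assoc (DD _ _ _ _ _ _), ← a4.eq, mul_assoc, ← mul_assoc, ← pow_add,
      ← two_mul] at a3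
  have e1 : F.filter (fun i => μ i = 0) = l.toFinset := by
    ext i; rw [Finset.mem_filter, List.mem_toFinset, hl']
  have e2 : Θ (∏ i ∈ F, (if μ i = 0 then Y i else 1)) = (l.map θ).prod := by
    rw [← Finset.prod_filter, e1, List.prod_toFinset _ hl, map_list_prod, List.map_map]
    congr 1
    exact List.map_congr_left fun i hi => (hY i ((hl' i).1 hi).1).symm
  have hc : ((d.factorial : ℂ) * ∏ i ∈ F, cc (μ i)) ≠ 0 :=
    mul_ne_zero (Nat.cast_ne_zero.2 (Nat.factorial_ne_zero _))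
      (Finset.prod_ne_zero_iff.2 fun i hi => cc_ne (hμ i hi))
  have e3 : Θ ((d.factorial : Kc) * ∏ i ∈ F, cc (μ i) • (if μ i = 0 then Y i else 1))
      = ((d.factorial : ℂ) * ∏ i ∈ F, cc (μ i)) • (l.map θ).prod := by
    rw [Finset.prod_smul, ← e2, ← map_smul, ← smul_smul, Nat.cast_smul_eq_nsmul, nsmul_eq_mul]
  rw [key, e3, mul_smul_comm, mul_smul_comm] at hmem
  have h4 := Subalgebra.smul_mem _ hmem ((d.factorial : ℂ) * ∏ i ∈ F, cc (μ i))⁻¹
  rw [smul_smul, inv_mul_cancel₀ hc, one_smul] at h4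
  have e4 : ZF F N P * ZF F N P * h = ZF F N P * h * (ZF F N P * 1) := by ring
  rw [e4]
  exact h4

end fin

open scoped IsMulCommutative in
theorem t3 : Pool.Agent.H143Z.Acc.T3 := by
  intro M _ _ ξ F θ μ s P B N I l hN hBF hP hθθ hθ hμ h1 h2 hI hl hl' h hh v hv
  classical
  let θ' : ℕ → En M := fun i => if i ∈ F then θ i else 0
  have hcomm : ∀ a ∈ Set.range θ', ∀ b ∈ Set.range θ', a * b = b * a := by
    rintro _ ⟨i, rfl⟩ _ ⟨j, rfl⟩
    by_cases hi : i ∈ F
    · by_cases hj : j ∈ F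
      · simp only [θ', if_pos hi, if_pos hj]; exact hθθ i hi j hj
      · simp [θ', hj]
    · simp [θ', hi]
  have := Algebra.isMulCommutative_adjoin ℂ hcomm
  have hY : ∀ i ∈ F, θ i = (Algebra.adjoin ℂ (Set.range θ')).val
      ⟨θ' i, Algebra.subset_adjoin ⟨i, rfl⟩⟩ := by
    intro i hi
    show θ i = θ' i
    simp only [θ', if_pos hi]
  exact core (Kc := Algebra.adjoin ℂ (Set.range θ')) (Θ := (Algebra.adjoin ℂ (Set.range θ')).val)
    (Y := fun i => ⟨θ' i, Algebra.subset_adjoin ⟨i, rfl⟩⟩) hBF hP hN hY hθ hμ h1 h2 hI hl hl' hh v hv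

end Pool.Agent.H707Z.T3
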