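import Pool.Agent.H143Z.Acc.Defs

set_option autoImplicit false

namespace Pool.Agent.H707Z.T3

open Pool.Agent.H143Z.Vir Pool.Agent.H143Z.Acc

lemma mo_sum {ι : Type} (S : Finset ι) (f : ι → Ex) : mo (∑ i ∈ S, f i) = ∏ i ∈ S, mo (f i) := by
  classical
  induction S using Finset.induction_on with
  | empty => simp [mo_zero]
  | insert a S ha ih => rw [Finset.sum_insert ha, Finset.prod_insert ha, mo_add, ih]

/-- Euler operator in `t_r` -/
noncomputable abbrev Dt (r : ℕ) : R →ₗ[ℂ] R := der (pr (Sum.inl r))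

lemma der_comm (l l' : Ex →+ ℤ) (a : R) : der l (der l' a) = der l' (der l a) := by
  induction a using ind with
  | h0 => simp
  | hadd x y hx hy => simp only [map_add, hx, hy]
  | hs c x hx => simp only [map_smul, hx]
  | h1 e => simp only [der_mo, map_smul, smul_smul, mul_comm]

lemma thx_sub_ne {j i : ℕ} (h : j ≠ i) (r : ℕ) (a : R) :
    thx j (sub r i a) = sub r i (thx j a) := by
  induction a using ind with
  | h0 => simp
  | hadd x y hx hy => simp only [map_add, hx, hy]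
  | hs c x hx => simp only [map_smul, hx]
  | h1 e => simp only [der_mo, map_smul, sub_mo, pr_apply, subE_inr, if_neg h, add_zero]

lemma thx_sub_self (i r : ℕ) (a : R) :
    thx i (sub r i a) = sub r i (thx i a) + sub r i (Dt r a) := by
  induction a using ind with
  | h0 => simp
  | hadd x y hx hy => simp only [map_add, hx, hy]; abel
  | hs c x hx => simp only [map_smul, hx, smul_add]
  | h1 e =>
    simp only [der_mo, map_smul, sub_mo, pr_apply, subE_inr, if_true]
    rw [← add_smul]; push_cast; rfl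

lemma der_dl_eq (r i : ℕ) (a : R) : der (dl r i) a = Dt r a - thx i a := by
  induction a using ind with
  | h0 => simp
  | hadd x y hx hy => simp only [map_add, hx, hy]; abel
  | hs c x hx => simp only [map_smul, hx, smul_sub]
  | h1 e =>
    simp only [der_mo, pr_apply, dl_apply]
    rw [← sub_smul]; push_cast; rfl

lemma sub_mo_zero {r : ℕ} (i : ℕ) {e : Ex} (h : e (Sum.inl r) = 0) : sub r i (mo e) = mo e := by
  rw [sub_mo]; congr 1; simp [subE, h]

/-- effect of the substitution on names of variables -/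
def sg (r i : ℕ) (v : Va) : Va := if v = Sum.inl r then Sum.inr i else v

lemma sg_self (r i : ℕ) : sg r i (Sum.inl r) = Sum.inr i := by simp [sg]
lemma sg_ne {r : ℕ} (i : ℕ) {v : Va} (h : v ≠ Sum.inl r) : sg r i v = v := by simp [sg, h]

lemma sub_single (r i : ℕ) (v : Va) (n : ℤ) :
    sub r i (mo (Pi.single v n)) = mo (Pi.single (sg r i v) n) := by
  by_cases h : v = Sum.inl r
  · subst h; rw [sg_self, sub_single_self]
  · rw [sg_ne i h, sub_single_ne r i h]

/-- exponent map: rename `t_0` to `v`, keep `x_B` -/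
noncomputable def gP (B : Finset ℕ) (v : Va) : Ex →+ Ex :=
  (AddMonoidHom.single (fun _ : Va => ℤ) v).comp (pr (Sum.inl 0)) + keepE (Sum.inr '' (B : Set ℕ))

lemma gP_apply (B : Finset ℕ) (v : Va) (e : Ex) :
    gP B v e = Pi.single v (e (Sum.inl 0)) + (Sum.inr '' (B : Set ℕ)).indicator e := rfl

/-- rename `t_0` to `v` -/
noncomputable def PV (B : Finset ℕ) (v : Va) : R →ₐ[ℂ] R := em (gP B v)

lemma PV_mo (B : Finset ℕ) (v : Va) (e : Ex) :
    PV B v (mo e) = mo (Pi.single v (e (Sum.inl 0)) + (Sum.inr '' (B : Set ℕ)).indicator e) :=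
  em_mo _ _

lemma ind_inl (B : Finset ℕ) (e : Ex) (r : ℕ) :
    (Sum.inr '' (B : Set ℕ) : Set Va).indicator e (Sum.inl r) = 0 :=
  Set.indicator_of_notMem (by simp) _

lemma ind_inr {B : Finset ℕ} (e : Ex) {j : ℕ} (h : j ∉ B) :
    (Sum.inr '' (B : Set ℕ) : Set Va).indicator e (Sum.inr j) = 0 :=
  Set.indicator_of_notMem (by simpa using h) _

lemma kt_eq (B : Finset ℕ) (G : R) : kt B G = PV B (Sum.inl 0) G := by
  induction G using ind with
  | h0 => simp
  | hadd x y hx hy => simp only [map_add, hx, hy]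
  | hs c x hx => simp only [map_smul, hx]
  | h1 e =>
    rw [PV_mo, kt, em_mo]
    congr 1
    funext w
    show Set.indicator _ e w = _
    by_cases hw : w = Sum.inl 0
    · subst hw
      rw [Set.indicator_of_mem (Set.mem_insert _ _), Pi.add_apply, ind_inl, Pi.single_eq_same,
        add_zero]
    · rw [Pi.add_apply, Pi.single_eq_of_ne hw, zero_add]
      by_cases hw' : w ∈ (Sum.inr '' (B : Set ℕ) : Set Va)
      · rw [Set.indicator_of_mem hw', Set.indicator_of_mem (Set.mem_insert_of_mem _ hw')]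
      · rw [Set.indicator_of_notMem hw', Set.indicator_of_notMem]
        rintro (h | h)
        · exact hw h
        · exact hw' h

lemma sub_PV (B : Finset ℕ) (r i : ℕ) (v : Va) (G : R) :
    sub r i (PV B v G) = PV B (sg r i v) G := by
  induction G using ind with
  | h0 => simp
  | hadd x y hx hy => simp only [map_add, hx, hy]
  | hs c x hx => simp only [map_smul, hx]
  | h1 e =>
    rw [PV_mo, PV_mo, mo_add, mo_add, map_mul, sub_single, sub_mo_zero i (ind_inl B e r)]

lemma thx_PV {B : Finset ℕ} {j : ℕ} (hj : j ∉ B) {v : Va} (hv : v ≠ Sum.inr j) (G : R) :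
    thx j (PV B v G) = 0 := by
  induction G using ind with
  | h0 => simp
  | hadd x y hx hy => simp only [map_add, hx, hy, add_zero]
  | hs c x hx => simp only [map_smul, hx, smul_zero]
  | h1 e =>
    rw [PV_mo, der_mo, pr_apply, Pi.add_apply, ind_inr e hj, Pi.single_eq_of_ne hv.symm]
    simp

lemma Dt_PV_ne (B : Finset ℕ) {r : ℕ} {v : Va} (hv : v ≠ Sum.inl r) (G : R) :
    Dt r (PV B v G) = 0 := by
  induction G using ind with
  | h0 => simp
  | hadd x y hx hy => simp only [map_add, hx, hy, add_zero]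
  | hs c x hx => simp only [map_smul, hx, smul_zero]
  | h1 e =>
    rw [PV_mo, der_mo, pr_apply, Pi.add_apply, ind_inl, Pi.single_eq_of_ne hv.symm]
    simp

lemma Dt_PV_self (B : Finset ℕ) (r : ℕ) (G : R) :
    Dt r (PV B (Sum.inl r) G) = PV B (Sum.inl r) (tht G) := by
  induction G using ind with
  | h0 => simp
  | hadd x y hx hy => simp only [map_add, hx, hy]
  | hs c x hx => simp only [map_smul, hx]
  | h1 e =>
    rw [der_mo, map_smul, PV_mo, der_mo, pr_apply, pr_apply, Pi.add_apply, ind_inl,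
      Pi.single_eq_same, add_zero]

lemma PV_tm (B : Finset ℕ) (v : Va) (k : ℤ) : PV B v (tm k) = mo (Pi.single v k) := by
  rw [tm, PV_mo, Pi.single_eq_same]
  congr 1
  have : (Sum.inr '' (B : Set ℕ) : Set Va).indicator (Pi.single (Sum.inl 0) k : Ex) = 0 := by
    funext w
    by_cases hw : w ∈ (Sum.inr '' (B : Set ℕ) : Set Va)
    · rw [Set.indicator_of_mem hw]
      obtain ⟨b, _, rfl⟩ := hw
      simp
    · rw [Set.indicator_of_notMem hw]; rfl
  rw [this, add_zero]

lemma sub0_eq {B : Finset ℕ} {G : R} (hG : PV B (Sum.inl 0) G = G) (i : ℕ) :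
    sub 0 i G = PV B (Sum.inr i) G := by
  conv_lhs => rw [← hG]
  rw [sub_PV, sg_self]

lemma sub0_tht {B : Finset ℕ} {G : R} (hG : PV B (Sum.inl 0) G = G) (i : ℕ) :
    sub 0 i (tht G) = PV B (Sum.inr i) (tht G) := by
  apply sub0_eq
  rw [← Dt_PV_self, hG]

/-- free of `t_a`, `a < r` -/
def NT (r : ℕ) (c : R) : Prop := ∀ a < r, Dt a c = 0 ∧ ∀ i, sub a i c = c

lemma NT_one (r : ℕ) : NT r 1 := fun _ _ => ⟨der_one _, fun _ => map_one _⟩

lemma NT.mul {r : ℕ} {c c' : R} (h : NT r c) (h' : NT r c') : NT r (c * c') := fun a ha =>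
  ⟨by rw [der_mul, (h a ha).1, (h' a ha).1]; simp,
    fun i => by rw [map_mul, (h a ha).2 i, (h' a ha).2 i]⟩

lemma NT.mono {r : ℕ} {c : R} (h : NT (r + 1) c) : NT r c := fun a ha => h a (by omega)

lemma NT.thx {r : ℕ} {c : R} (h : NT r c) (j : ℕ) : NT r (thx j c) := by
  intro a ha
  refine ⟨by rw [der_comm, (h a ha).1, map_zero], fun i => ?_⟩
  by_cases hj : j = i
  · subst hj
    have := thx_sub_self j a c
    rw [(h a ha).1, map_zero, add_zero, (h a ha).2 j] at this
    exact this.symm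
  · rw [← thx_sub_ne hj, (h a ha).2 i]

lemma NT_PV (B : Finset ℕ) (r i : ℕ) (G : R) : NT r (PV B (Sum.inr i) G) := fun a _ =>
  ⟨Dt_PV_ne B (by simp) G, fun i' => by rw [sub_PV, sg_ne _ (by simp)]⟩

/-- product of the `G a (t_a)` -/
noncomputable def AP (B : Finset ℕ) (G : ℕ → R) (r : ℕ) : R :=
  ∏ a ∈ Finset.range r, PV B (Sum.inl a) (G a)

lemma AP_succ (B : Finset ℕ) (G : ℕ → R) (r : ℕ) :
    AP B G (r + 1) = AP B G r * PV B (Sum.inl r) (G r) := Finset.prod_range_succ _ _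

lemma sub_AP (B : Finset ℕ) (G : ℕ → R) (r i : ℕ) : sub r i (AP B G r) = AP B G r := by
  rw [AP, map_prod]
  refine Finset.prod_congr rfl fun a ha => ?_
  rw [sub_PV, sg_ne]
  have := Finset.mem_range.1 ha
  simp; omega

lemma Dt_AP (B : Finset ℕ) (G : ℕ → R) (r : ℕ) : AP B G r ∈ kerD (pr (Sum.inl r)) := by
  refine prod_mem fun a ha => ?_
  have := Finset.mem_range.1 ha
  exact Dt_PV_ne B (by simp; omega) _

lemma thx_AP {B : Finset ℕ} (G : ℕ → R) (r : ℕ) {j : ℕ} (hj : j ∉ B) :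
    AP B G r ∈ kerD (pr (Sum.inr j)) :=
  prod_mem fun _ _ => thx_PV hj (by simp) _

/-- keep only `t_a`, `a < m` -/
noncomputable def gT (m : ℕ) : Ex →+ Ex :=
  ∑ a ∈ Finset.range m, (AddMonoidHom.single (fun _ : Va => ℤ) (Sum.inl a)).comp (pr (Sum.inl a))

lemma gT_apply (m : ℕ) (e : Ex) :
    gT m e = ∑ a ∈ Finset.range m, Pi.single (Sum.inl a : Va) (e (Sum.inl a)) := by
  rw [gT, AddMonoidHom.finsetSum_apply]; rfl

/-- Laurent polynomials in `t_a`, `a < m` -/
noncomputable def TA (m : ℕ) : Subalgebra ℂ R := fixS (em (gT m))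

lemma single_TA {m a : ℕ} (h : a < m) (n : ℤ) : mo (Pi.single (Sum.inl a : Va) n : Ex) ∈ TA m := by
  rw [TA, mem_fixS, em_mo, gT_apply, Finset.sum_eq_single a]
  · simp
  · intro b _ hb
    rw [Pi.single_eq_of_ne (by simpa using hb)]; simp
  · intro ha; exact absurd (Finset.mem_range.2 h) ha

lemma thx_TA {m : ℕ} {w : R} (hw : w ∈ TA m) (j : ℕ) : thx j w = 0 := by
  have h1 : em (gT m) w = w := hw
  rw [← h1]
  clear h1 hw
  induction w using ind with
  | h0 => simp
  | hadd x y hx hy => simp only [map_add, hx, hy, add_zero]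
  | hs c x hx => simp only [map_smul, hx, smul_zero]
  | h1 e =>
    rw [em_mo, der_mo, pr_apply, gT_apply, Finset.sum_apply, Finset.sum_eq_zero]
    · simp
    · intro a _; simp

/-- symmetrisation in steps -/
noncomputable def SyT (F : Finset ℕ) : ℕ → Finset ℕ → (R →ₗ[ℂ] R)
  | 0, _ => LinearMap.id
  | r + 1, T => ∑ i ∈ F \ T, SyT F r (insert i T) ∘ₗ (sub r i).toLinearMap

lemma SyT_zero (F T : Finset ℕ) (a : R) : SyT F 0 T a = a := rfl

lemma SyT_succ (F : Finset ℕ) (r : ℕ) (T : Finset ℕ) (a : R) :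
    SyT F (r + 1) T a = ∑ i ∈ F \ T, SyT F r (insert i T) (sub r i a) := by
  rw [SyT, LinearMap.sum_apply]; rfl

lemma thx_SyT (F : Finset ℕ) (j : ℕ) (r : ℕ) : ∀ (T : Finset ℕ) (a : R), j ∈ T →
    thx j (SyT F r T a) = SyT F r T (thx j a) := by
  induction r with
  | zero => intro T a _; rfl
  | succ r ih =>
    intro T a hj
    rw [SyT_succ, SyT_succ, map_sum]
    refine Finset.sum_congr rfl fun i hi => ?_
    have hne : j ≠ i := fun h => (Finset.mem_sdiff.1 hi).2 (h ▸ hj)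
    rw [ih _ _ (Finset.mem_insert_of_mem hj), thx_sub_ne hne]

/-- the variables `t_a`, `a < r` and `x_i`, `i ∈ T` -/
def U (r : ℕ) (T : Finset ℕ) : Finset Va := (Finset.range r).disjSum T

lemma inl_mem_U {r a : ℕ} {T : Finset ℕ} : Sum.inl a ∈ U r T ↔ a < r := by simp [U]
lemma inr_mem_U {r a : ℕ} {T : Finset ℕ} : Sum.inr a ∈ U r T ↔ a ∈ T := by simp [U]

lemma swap_mem_U {r i : ℕ} {T : Finset ℕ} (hi : i ∉ T) (v : Va) :
    v ∈ U (r + 1) T ↔ Equiv.swap (Sum.inl r) (Sum.inr i) v ∈ U r (insert i T) := by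
  by_cases h1 : v = Sum.inl r
  · subst h1; rw [Equiv.swap_apply_left, inl_mem_U, inr_mem_U]; simp
  · by_cases h2 : v = Sum.inr i
    · subst h2; rw [Equiv.swap_apply_right, inl_mem_U, inr_mem_U]; simp [hi]
    · rw [Equiv.swap_apply_of_ne_of_ne h1 h2]
      cases v with
      | inl a =>
        have : a ≠ r := fun h => h1 (by rw [h])
        rw [inl_mem_U, inl_mem_U]; omega
      | inr a =>
        have : a ≠ i := fun h => h2 (by rw [h])
        rw [inr_mem_U, inr_mem_U]; simp [this]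

lemma sg_eq_swap {r i : ℕ} {T : Finset ℕ} (hi : i ∉ T) {v : Va} (hv : v ∈ U (r + 1) T) :
    sg r i v = Equiv.swap (Sum.inl r) (Sum.inr i) v := by
  by_cases h1 : v = Sum.inl r
  · subst h1; rw [Equiv.swap_apply_left, sg_self]
  · have h2 : v ≠ Sum.inr i := by
      rintro rfl
      exact hi (inr_mem_U.1 hv)
    rw [Equiv.swap_apply_of_ne_of_ne h1 h2, sg_ne _ h1]

/-- symmetric families -/
def Fam (f : Finset Va → R) : Prop :=
  ∀ r T i, i ∉ T → sub r i (f (U (r + 1) T)) = f (U r (insert i T))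

lemma Fam.mul {f g : Finset Va → R} (hf : Fam f) (hg : Fam g) : Fam fun S => f S * g S :=
  fun r T i hi => by rw [map_mul, hf r T i hi, hg r T i hi]

lemma Fam.add {f g : Finset Va → R} (hf : Fam f) (hg : Fam g) : Fam fun S => f S + g S :=
  fun r T i hi => by rw [map_add, hf r T i hi, hg r T i hi]

lemma Fam_const (c : ℂ) : Fam fun _ => algebraMap ℂ R c := fun r _ i _ => (sub r i).commutes c

lemma Fam_prod {φ : Va → R} (h : ∀ r i v, sub r i (φ v) = φ (sg r i v)) :
    Fam fun S => ∏ v ∈ S, φ v := by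
  intro r T i hi
  rw [map_prod]
  refine Finset.prod_equiv (Equiv.swap (Sum.inl r) (Sum.inr i)) (swap_mem_U hi) fun v hv => ?_
  rw [h, sg_eq_swap hi hv]

lemma Fam_sum {φ : Va → R} (h : ∀ r i v, sub r i (φ v) = φ (sg r i v)) :
    Fam fun S => ∑ v ∈ S, φ v := by
  intro r T i hi
  rw [map_sum]
  refine Finset.sum_equiv (Equiv.swap (Sum.inl r) (Sum.inr i)) (swap_mem_U hi) fun v hv => ?_
  rw [h, sg_eq_swap hi hv]

/-- the discriminant factor -/
noncomputable def Vd (N : ℕ) (S : Finset Va) : R := ∏ p ∈ S.offDiag, (X p.1 - X p.2) ^ N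

lemma Fam_Vd (N : ℕ) : Fam (Vd N) := by
  intro r T i hi
  rw [Vd, Vd, map_prod]
  refine Finset.prod_equiv ((Equiv.swap (Sum.inl r : Va) (Sum.inr i)).prodCongr
    (Equiv.swap (Sum.inl r : Va) (Sum.inr i))) (fun p => ?_) fun p hp => ?_
  · rw [Finset.mem_offDiag, Finset.mem_offDiag, swap_mem_U hi, swap_mem_U hi]
    simp
  · obtain ⟨h1, h2, _⟩ := Finset.mem_offDiag.1 hp
    rw [map_pow, map_sub, X, X, sub_single, sub_single, sg_eq_swap hi h1, sg_eq_swap hi h2]
    rfl

lemma SyT_Fam (F : Finset ℕ) {f : Finset Va → R} (hf : Fam f) (r : ℕ) : ∀ T : Finset ℕ, T ⊆ F →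
    r + T.card = F.card → SyT F r T (f (U r T)) = (r.factorial : ℂ) • f (U 0 F) := by
  induction r with
  | zero =>
    intro T hT hc
    have : T = F := Finset.eq_of_subset_of_card_le hT (by omega)
    subst this
    simp [SyT_zero]
  | succ r ih =>
    intro T hT hc
    rw [SyT_succ, Finset.sum_congr rfl (g := fun _ => (r.factorial : ℂ) • f (U 0 F)),
      Finset.sum_const, Finset.card_sdiff_of_subset hT, ← Nat.cast_smul_eq_nsmul ℂ, smul_smul,
      Nat.factorial_succ]
    · have : F.card - T.card = r + 1 := by omega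
      rw [this]; push_cast; rfl
    · intro i hi
      obtain ⟨hiF, hiT⟩ := Finset.mem_sdiff.1 hi
      rw [hf r T i hiT]
      refine ih _ (Finset.insert_subset hiF hT) ?_
      rw [Finset.card_insert_of_notMem hiT]; omega

lemma prod_U0 (F : Finset ℕ) (φ : Va → R) : ∏ v ∈ U 0 F, φ v = ∏ i ∈ F, φ (Sum.inr i) := by
  rw [U, Finset.prod_disjSum]; simp

lemma sum_U0 (F : Finset ℕ) (φ : Va → R) : ∑ v ∈ U 0 F, φ v = ∑ i ∈ F, φ (Sum.inr i) := by
  rw [U, Finset.sum_disjSum]; simp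

lemma prod_Ue (m : ℕ) (φ : Va → R) :
    ∏ v ∈ U m ∅, φ v = ∏ a ∈ Finset.range m, φ (Sum.inl a) := by
  rw [U, Finset.prod_disjSum]; simp

lemma Vd_U0 (N : ℕ) (F : Finset ℕ) : Vd N (U 0 F) = ∏ p ∈ F.offDiag, (x p.1 - x p.2) ^ N := by
  symm
  refine Finset.prod_nbij (fun p => (Sum.inr p.1, Sum.inr p.2)) ?_ ?_ ?_ fun _ _ => rfl
  · intro p hp
    obtain ⟨h1, h2, h3⟩ := Finset.mem_offDiag.1 hp
    exact Finset.mem_offDiag.2 ⟨inr_mem_U.2 h1, inr_mem_U.2 h2, by simpa using h3⟩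
  · intro p _ q _ h
    simp only [Prod.mk.injEq, Sum.inr.injEq] at h
    exact Prod.ext h.1 h.2
  · rintro ⟨v, w⟩ hq
    obtain ⟨h1, h2, h3⟩ := Finset.mem_offDiag.1 (Finset.mem_coe.1 hq)
    cases v with
    | inl a => exact absurd (inl_mem_U.1 h1) (by omega)
    | inr a =>
      cases w with
      | inl b => exact absurd (inl_mem_U.1 h2) (by omega)
      | inr b =>
        refine ⟨(a, b), Finset.mem_coe.2 (Finset.mem_offDiag.2
          ⟨inr_mem_U.1 h1, inr_mem_U.1 h2, ?_⟩), rfl⟩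
        simpa using h3

lemma single_Ue {m : ℕ} {v : Va} (hv : v ∈ U m ∅) (n : ℤ) : mo (Pi.single v n : Ex) ∈ TA m := by
  cases v with
  | inl a => exact single_TA (inl_mem_U.1 hv) n
  | inr a => exact absurd (inr_mem_U.1 hv) (by simp)

lemma Vd_TA (N m : ℕ) : Vd N (U m ∅) ∈ TA m := by
  refine prod_mem fun p hp => ?_
  obtain ⟨h1, h2, _⟩ := Finset.mem_offDiag.1 hp
  exact pow_mem (sub_mem (single_Ue h1 1) (single_Ue h2 1)) N

lemma Good_Vd {N : ℕ} (hN : 2 ≤ N) (m : ℕ) : Good m ∅ (Vd N (U m ∅)) := by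
  refine ⟨fun i hi i' hi' hne => ?_, fun i _ k hk => absurd hk (by simp)⟩
  have hsub : ({((Sum.inl i : Va), (Sum.inl i' : Va)), (Sum.inl i', Sum.inl i)} : Finset (Va × Va))
      ⊆ (U m ∅).offDiag := by
    intro p hp
    rcases Finset.mem_insert.1 hp with rfl | hp
    · exact Finset.mem_offDiag.2 ⟨inl_mem_U.2 hi, inl_mem_U.2 hi', by simpa using hne⟩
    · rw [Finset.mem_singleton.1 hp]
      exact Finset.mem_offDiag.2 ⟨inl_mem_U.2 hi', inl_mem_U.2 hi, by simpa using hne.symm⟩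
  refine Dvd.dvd.trans ?_ (Finset.prod_dvd_prod_of_subset _ _ _ hsub)
  rw [Finset.prod_pair (by simp [hne])]
  show (t i - t i') ^ 3 ∣ (t i - t i') ^ N * (t i' - t i) ^ N
  have : t i' - t i = -1 * (t i - t i') := by ring
  rw [this, mul_pow, mul_left_comm, ← pow_add]
  exact Dvd.dvd.mul_left (pow_dvd_pow _ (by omega)) _

lemma exists_Fam (F : Finset ℕ) (m : ℕ) {h : R} (hh : h ∈ Algebra.adjoin ℂ (Set.range (pS F))) :
    ∃ f : Finset Va → R, Fam f ∧ f (U 0 F) = h ∧ f (U m ∅) ∈ TA m := by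
  induction hh using Algebra.adjoin_induction with
  | mem y hy =>
    obtain ⟨k, rfl⟩ := hy
    refine ⟨fun S => ∑ v ∈ S, mo (Pi.single v k), Fam_sum fun r i v => sub_single r i v k, ?_,
      sum_mem fun v hv => single_Ue hv k⟩
    exact sum_U0 F _
  | algebraMap c => exact ⟨fun _ => algebraMap ℂ R c, Fam_const c, rfl, Subalgebra.algebraMap_mem _ _⟩
  | add y z _ _ hy hz =>
    obtain ⟨f, hf, hf1, hf2⟩ := hy
    obtain ⟨g, hg, hg1, hg2⟩ := hz
    exact ⟨fun S => f S + g S, hf.add hg, by simp only [hf1, hg1], add_mem hf2 hg2⟩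
  | mul y z _ _ hy hz =>
    obtain ⟨f, hf, hf1, hf2⟩ := hy
    obtain ⟨g, hg, hg1, hg2⟩ := hz
    exact ⟨fun S => f S * g S, hf.mul hg, by simp only [hf1, hg1], mul_mem hf2 hg2⟩

/-- exponent of `(∏ x_i)^k` -/
noncomputable def piE (F : Finset ℕ) (k : ℤ) : Ex := ∑ i ∈ F, Pi.single (Sum.inr i : Va) k

lemma piE_inr {F : Finset ℕ} (k : ℤ) {i : ℕ} (hi : i ∈ F) : piE F k (Sum.inr i) = k := by
  rw [piE, Finset.sum_apply, Finset.sum_eq_single i]
  · simp
  · intro b _ hb
    exact Pi.single_eq_of_ne (by simpa using hb.symm) _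
  · intro h; exact absurd hi h

lemma piE_neg (F : Finset ℕ) (k : ℤ) : piE F k + piE F (-k) = 0 := by
  rw [piE, piE, ← Finset.sum_add_distrib]
  refine Finset.sum_eq_zero fun i _ => ?_
  rw [← Pi.single_add]; simp

/-- the test element and its symmetrisation -/
lemma exists_test {B F : Finset ℕ} {P : R} (hP : kt B P = P) {N : ℕ} (hN : 2 ≤ N) {h : R}
    (hh : h ∈ Algebra.adjoin ℂ (Set.range (pS F))) (k : ℤ) :
    ∃ w ∈ TA F.card, Good F.card ∅ w ∧ SyT F F.card ∅ (AP B (fun _ => P) F.card * w)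
      = ((F.card).factorial : ℂ) • (ZF F N P * h * mo (piE F k)) := by
  obtain ⟨f, hf, hf1, hf2⟩ := exists_Fam F F.card hh
  have hP' : PV B (Sum.inl 0) P = P := by rw [← kt_eq, hP]
  have h1 : Fam fun S => ∏ v ∈ S, PV B v P := Fam_prod fun r i v => sub_PV B r i v P
  have h2 : Fam fun S => ∏ v ∈ S, mo (Pi.single v k : Ex) :=
    Fam_prod fun r i v => sub_single r i v k
  have h3 := h1.mul (((Fam_Vd N).mul hf).mul h2)
  refine ⟨Vd N (U F.card ∅) * f (U F.card ∅) * ∏ v ∈ U F.card ∅, mo (Pi.single v k : Ex),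
    mul_mem (mul_mem (Vd_TA _ _) hf2) (prod_mem fun v hv => single_Ue hv k),
    ((Good_Vd hN _).mul' _).mul' _, ?_⟩
  have h4 := SyT_Fam F h3 F.card ∅ (Finset.empty_subset _) (by simp)
  rw [prod_Ue F.card (fun v => PV B v P)] at h4
  rw [AP, h4, prod_U0, prod_U0, Vd_U0, hf1, ZF, piE, mo_sum]
  congr 1
  rw [Finset.prod_congr rfl fun i _ => sub0_eq hP' i]
  ring

end Pool.Agent.H707Z.T3
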